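import Pool.Agent.H52CD.Face

set_option autoImplicit false

open Set

namespace Pool.Agent.H52CD

variable {n : ℕ}

/-! ### The polygon -/

theorem exists_pred {P : Fin n → ℝ × ℝ} (h : Ccw P) (hn : 3 ≤ n) (j : Fin n) :
    ∃ a, a ≠ j ∧ ∀ k, k ≠ j → k ≠ a → 0 < orient (P a) (P j) (P k) := by
  by_cases hj : j.val = 0
  · refine ⟨⟨n - 1, by omega⟩, ?_, ?_⟩
    · intro hh; have := congrArg Fin.val hh; simp at this; omega
    · intro k hk1 hk2
      rw [orient_rot]
      apply h
      · rw [Fin.lt_def]
        have : k.val ≠ j.val := fun hh => hk1 (Fin.ext hh)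
        omega
      · rw [Fin.lt_def]
        have : k.val ≠ n - 1 := fun hh => hk2 (Fin.ext hh)
        have := k.isLt
        simp only; omega
  · refine ⟨⟨j.val - 1, by omega⟩, ?_, ?_⟩
    · intro hh; have := congrArg Fin.val hh; simp at this; omega
    · intro k hk1 hk2
      have h1 : k.val ≠ j.val := fun hh => hk1 (Fin.ext hh)
      have h2 : k.val ≠ j.val - 1 := fun hh => hk2 (Fin.ext hh)
      by_cases hlt : k.val < j.val
      · rw [← orient_rot]
        apply h
        · rw [Fin.lt_def]; simp only; omega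
        · rw [Fin.lt_def]; simp only; omega
      · apply h
        · rw [Fin.lt_def]; simp only; omega
        · rw [Fin.lt_def]; omega

theorem exists_succ {P : Fin n → ℝ × ℝ} (h : Ccw P) (hn : 3 ≤ n) (j : Fin n) :
    ∃ b, b ≠ j ∧ ∀ k, k ≠ j → k ≠ b → 0 < orient (P j) (P b) (P k) := by
  by_cases hj : j.val = n - 1
  · refine ⟨⟨0, by omega⟩, ?_, ?_⟩
    · intro hh; have := congrArg Fin.val hh; simp at this; omega
    · intro k hk1 hk2
      rw [orient_rot]
      have h1 : k.val ≠ j.val := fun hh => hk1 (Fin.ext hh)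
      have h2 : k.val ≠ 0 := fun hh => hk2 (Fin.ext hh)
      have := k.isLt
      apply h
      · rw [Fin.lt_def]; simp only; omega
      · rw [Fin.lt_def]; omega
  · have hj' := j.isLt
    refine ⟨⟨j.val + 1, by omega⟩, ?_, ?_⟩
    · intro hh; have := congrArg Fin.val hh; simp at this
    · intro k hk1 hk2
      have h1 : k.val ≠ j.val := fun hh => hk1 (Fin.ext hh)
      have h2 : k.val ≠ j.val + 1 := fun hh => hk2 (Fin.ext hh)
      by_cases hlt : k.val < j.val
      · rw [← orient_rot]
        apply h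
        · rw [Fin.lt_def]; omega
        · rw [Fin.lt_def]; simp only; omega
      · apply h
        · rw [Fin.lt_def]; simp only; omega
        · rw [Fin.lt_def]; simp only; omega

/-- supporting functional at the vertex `j` -/
theorem support {P : Fin n → ℝ × ℝ} (h : Ccw P) (hn : 3 ≤ n) (j : Fin n) :
    ∃ a b, ∀ k, k ≠ j → 0 < orient (P a) (P j) (P k) + orient (P j) (P b) (P k) := by
  obtain ⟨a, ha, ha'⟩ := exists_pred h hn j
  obtain ⟨b, hb, hb'⟩ := exists_succ h hn j
  have hab : a ≠ b := by
    rintro rfl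
    obtain ⟨k, hk⟩ : ∃ k, k ∉ ({j, a} : Finset (Fin n)) := by
      by_contra hcon
      push Not at hcon
      have h1 : (Finset.univ : Finset (Fin n)) ⊆ {j, a} := fun k _ => hcon k
      have h2 := Finset.card_le_card h1
      have h3 : ({j, a} : Finset (Fin n)).card ≤ 2 := Finset.card_le_two
      simp at h2
      omega
    simp only [Finset.mem_insert, Finset.mem_singleton, not_or] at hk
    have h1 := ha' k hk.1 hk.2
    have h2 := hb' k hk.1 hk.2
    rw [orient_swap] at h2
    linarith
  refine ⟨a, b, ?_⟩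
  intro k hk
  by_cases hka : k = a
  · have h1 := hb' k hk (by rw [hka]; exact hab)
    have h2 : orient (P a) (P j) (P k) = 0 := by rw [hka]; simp
    linarith
  · have h1 := ha' k hk hka
    by_cases hkb : k = b
    · have h2 : orient (P j) (P b) (P k) = 0 := by rw [hkb]; simp
      linarith
    · have h2 := hb' k hk hkb
      linarith

theorem ccw_inj {P : Fin n → ℝ × ℝ} (h : Ccw P) (hn : 3 ≤ n) (i j : Fin n) (hij : i ≠ j) :
    P i ≠ P j := by
  intro hP
  obtain ⟨a, b, hab⟩ := support h hn j
  have := hab i hij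
  rw [hP] at this
  simp at this

theorem hull_nonneg {P : Fin n → ℝ × ℝ} {a b c d : ℝ × ℝ}
    (hg : ∀ k, 0 ≤ orient a b (P k) + orient c d (P k)) {x : ℝ × ℝ}
    (hx : x ∈ convexHull ℝ (range P)) : 0 ≤ orient a b x + orient c d x := by
  have hc : Convex ℝ {x | 0 ≤ orient a b x + orient c d x} := by
    intro x hx y hy s t hs ht hst
    simp only [mem_setOf_eq] at hx hy ⊢
    rw [orient_comb _ _ _ _ hst, orient_comb _ _ _ _ hst]
    have h1 : 0 ≤ s * (orient a b x + orient c d x) := by positivity
    have h2 : 0 ≤ t * (orient a b y + orient c d y) := by positivity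
    linarith
  have hsub : range P ⊆ {x | 0 ≤ orient a b x + orient c d x} := by
    rintro _ ⟨k, rfl⟩; exact hg k
  exact convexHull_min hsub hc hx

theorem line_param {p q x : ℝ × ℝ} (hpq : p ≠ q) (h0 : orient p q x = 0) :
    ∃ t : ℝ, x = (1 - t) • p + t • q := by
  have hd0 : (q.1 - p.1) ^ 2 + (q.2 - p.2) ^ 2 ≠ 0 := by
    intro hcon
    apply hpq
    have h1 : (q.1 - p.1) ^ 2 = 0 := by nlinarith [sq_nonneg (q.1 - p.1), sq_nonneg (q.2 - p.2)]
    have h2 : (q.2 - p.2) ^ 2 = 0 := by nlinarith [sq_nonneg (q.1 - p.1), sq_nonneg (q.2 - p.2)]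
    have h3 := pow_eq_zero_iff (two_ne_zero) |>.mp h1
    have h4 := pow_eq_zero_iff (two_ne_zero) |>.mp h2
    exact Prod.ext (by linarith) (by linarith)
  refine ⟨((q.1 - p.1) * (x.1 - p.1) + (q.2 - p.2) * (x.2 - p.2)) /
    ((q.1 - p.1) ^ 2 + (q.2 - p.2) ^ 2), ?_⟩
  unfold orient at h0
  apply Prod.ext
  · simp only [Prod.fst_add, Prod.smul_fst, smul_eq_mul]
    field_simp
    linear_combination (-(q.2 - p.2)) * h0
  · simp only [Prod.snd_add, Prod.smul_snd, smul_eq_mul]
    field_simp
    linear_combination (q.1 - p.1) * h0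

theorem seg_of_hull {P : Fin n → ℝ × ℝ} (h : Ccw P) (hn : 3 ≤ n) {x : ℝ × ℝ}
    (hx : x ∈ convexHull ℝ (range P)) {i j : Fin n} (hij : i ≠ j)
    (h0 : orient (P i) (P j) x = 0) : x ∈ segment ℝ (P i) (P j) := by
  obtain ⟨t, ht⟩ := line_param (ccw_inj h hn i j hij) h0
  obtain ⟨a, b, hab⟩ := support h hn j
  obtain ⟨c, d, hcd⟩ := support h hn i
  have h1 : 0 ≤ orient (P a) (P j) x + orient (P j) (P b) x := by
    apply hull_nonneg _ hx
    intro k
    by_cases hk : k = j
    · rw [hk]; simp
    · exact (hab k hk).le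
  have h2 : 0 ≤ orient (P c) (P i) x + orient (P i) (P d) x := by
    apply hull_nonneg _ hx
    intro k
    by_cases hk : k = i
    · rw [hk]; simp
    · exact (hcd k hk).le
  have hst : (1 - t) + t = 1 := by ring
  rw [ht, orient_comb _ _ _ _ hst, orient_comb _ _ _ _ hst] at h1 h2
  simp only [orient_left, orient_right] at h1 h2
  have h3 := hab i hij
  have h4 := hcd j hij.symm
  have h5 : 0 ≤ (1 - t) * (orient (P a) (P j) (P i) + orient (P j) (P b) (P i)) := by linarith
  have h6 : 0 ≤ t * (orient (P c) (P i) (P j) + orient (P i) (P d) (P j)) := by linarith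
  have h7 : 0 ≤ 1 - t := by
    by_contra hcon
    push Not at hcon
    have := mul_neg_of_neg_of_pos hcon h3
    linarith
  have h8 : 0 ≤ t := by
    by_contra hcon
    push Not at hcon
    have := mul_neg_of_neg_of_pos hcon h4
    linarith
  exact ⟨1 - t, t, h7, h8, hst, ht.symm⟩

/-! ### Five points -/

structure Five (a b c d e : ℝ × ℝ) : Prop where
  abc : 0 < orient a b c
  abd : 0 < orient a b d
  abe : 0 < orient a b e
  acd : 0 < orient a c d
  ace : 0 < orient a c e
  ade : 0 < orient a d e
  bcd : 0 < orient b c d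
  bce : 0 < orient b c e
  bde : 0 < orient b d e
  cde : 0 < orient c d e

theorem Five.rot {a b c d e : ℝ × ℝ} (h : Five a b c d e) : Five b c d e a := by
  obtain ⟨h1, h2, h3, h4, h5, h6, h7, h8, h9, h10⟩ := h
  refine ⟨h7, h8, ?_, h9, ?_, ?_, h10, ?_, ?_, ?_⟩
  · rwa [← orient_rot]
  · rwa [← orient_rot]
  · rwa [← orient_rot]
  · rwa [← orient_rot]
  · rwa [← orient_rot]
  · rwa [← orient_rot]

/-- the intersection point of the lines `ac` and `bd` -/
noncomputable def X (a b c d : ℝ × ℝ) : ℝ × ℝ :=
  (orient b c d / (orient b c d + orient a b d)) • a +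
    (orient a b d / (orient b c d + orient a b d)) • c

theorem X_eval {a b c d : ℝ × ℝ} (h1 : 0 < orient b c d) (h2 : 0 < orient a b d) (u v : ℝ × ℝ) :
    (orient b c d + orient a b d) * orient u v (X a b c d) =
      orient b c d * orient u v a + orient a b d * orient u v c := by
  unfold X
  rw [orient_comb]
  · field_simp
  · field_simp

theorem X_pos {a b c d : ℝ × ℝ} (h1 : 0 < orient b c d) (h2 : 0 < orient a b d) (u v : ℝ × ℝ)
    (h : 0 < orient b c d * orient u v a + orient a b d * orient u v c) :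
    0 < orient u v (X a b c d) := by
  rw [← X_eval h1 h2] at h
  exact (pos_iff_pos_of_mul_pos h).mp (by linarith)

theorem X_zero {a b c d : ℝ × ℝ} (h1 : 0 < orient b c d) (h2 : 0 < orient a b d) (u v : ℝ × ℝ)
    (h : orient b c d * orient u v a + orient a b d * orient u v c = 0) :
    orient u v (X a b c d) = 0 := by
  rw [← X_eval h1 h2] at h
  rcases mul_eq_zero.mp h with h3 | h3
  · linarith
  · exact h3

theorem corner {a b c d e : ℝ × ℝ} (h : Five a b c d e) :
    orient a c (X a b c d) = 0 ∧ orient b d (X a b c d) = 0 ∧ 0 < orient c e (X a b c d) ∧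
      0 < orient d a (X a b c d) ∧ 0 < orient e b (X a b c d) := by
  obtain ⟨abc, abd, abe, acd, ace, ade, bcd, bce, bde, cde⟩ := h
  refine ⟨X_zero bcd abd _ _ (by simp), X_zero bcd abd _ _ ?_, X_pos bcd abd _ _ ?_,
    X_pos bcd abd _ _ ?_, X_pos bcd abd _ _ ?_⟩
  · have h1 : orient b d a = orient a b d := by rw [← orient_rot]
    have h2 : orient b d c = - orient b c d := orient_swap' _ _ _
    rw [h1, h2]; ring
  · have h1 : orient c e a = orient a c e := by rw [← orient_rot]
    rw [h1]; simp; positivity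
  · have h1 : orient d a c = orient a c d := by rw [orient_rot]
    rw [h1]; simp; positivity
  · have h1 : orient e b a = - orient a b e := by unfold orient; ring
    have h2 : orient e b c = orient b c e := by rw [orient_rot]
    rw [h1, h2]
    have key : orient b c d * (-orient a b e) + orient a b d * orient b c e =
        orient a b c * orient b d e := by
      unfold orient; ring
    rw [key]; positivity

theorem uniq {a c b d x y : ℝ × ℝ} (hD : orient a c d - orient a c b ≠ 0)
    (h1 : orient a c x = 0) (h2 : orient b d x = 0) (h3 : orient a c y = 0)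
    (h4 : orient b d y = 0) : x = y := by
  unfold orient at *
  apply Prod.ext
  · apply mul_left_cancel₀ hD
    linear_combination (d.1 - b.1) * (h1 - h3) - (c.1 - a.1) * (h2 - h4)
  · apply mul_left_cancel₀ hD
    linear_combination (d.2 - b.2) * (h1 - h3) - (c.2 - a.2) * (h2 - h4)

end Pool.Agent.H52CD
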