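import Mathlib

set_option autoImplicit false

open Set

namespace Pool.Agent.H52CD

/-- Twice the signed area of the triangle `p q r`. -/
def orient (p q r : ℝ × ℝ) : ℝ := (q.1 - p.1) * (r.2 - p.2) - (q.2 - p.2) * (r.1 - p.1)

/-- `P 0, …, P (n-1)` are the vertices of a strictly convex polygon, in counterclockwise order. -/
def Ccw {n : ℕ} (P : Fin n → ℝ × ℝ) : Prop :=
  ∀ i j k : Fin n, i < j → j < k → 0 < orient (P i) (P j) (P k)

/-- The union of all edges of the drawing. -/
def edges {n : ℕ} (P : Fin n → ℝ × ℝ) : Set (ℝ × ℝ) := ⋃ i, ⋃ j, segment ℝ (P i) (P j)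

/-- `F` is a bounded face of the drawing. -/
def IsBoundedFace {n : ℕ} (P : Fin n → ℝ × ℝ) (F : Set (ℝ × ℝ)) : Prop :=
  Bornology.IsBounded F ∧ ∃ x ∈ (edges P)ᶜ, F = connectedComponentIn (edges P)ᶜ x

/-- The edges which contain `x` in their relative interior. -/
def through {n : ℕ} (P : Fin n → ℝ × ℝ) (x : ℝ × ℝ) : Set (Fin n × Fin n) :=
  {e | e.1 < e.2 ∧ x ∈ openSegment ℝ (P e.1) (P e.2)}

theorem orient_rot (a b c : ℝ × ℝ) : orient a b c = orient b c a := by unfold orient; ring

theorem orient_swap (a b c : ℝ × ℝ) : orient b a c = - orient a b c := by unfold orient; ring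

theorem orient_swap' (a b c : ℝ × ℝ) : orient a c b = - orient a b c := by unfold orient; ring

@[simp] theorem orient_left (a b : ℝ × ℝ) : orient a b a = 0 := by unfold orient; ring
@[simp] theorem orient_right (a b : ℝ × ℝ) : orient a b b = 0 := by unfold orient; ring
@[simp] theorem orient_same (a c : ℝ × ℝ) : orient a a c = 0 := by unfold orient; ring

theorem orient_comb (a b x y : ℝ × ℝ) {t s : ℝ} (h : t + s = 1) :
    orient a b (t • x + s • y) = t * orient a b x + s * orient a b y := by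
  unfold orient
  simp only [Prod.fst_add, Prod.snd_add, Prod.smul_fst, Prod.smul_snd, smul_eq_mul]
  linear_combination (-(-(b.1 - a.1) * a.2 + (b.2 - a.2) * a.1)) * h

theorem orient_add (a b x d : ℝ × ℝ) (e : ℝ) :
    orient a b (x + e • d) = orient a b x + e * ((b.1 - a.1) * d.2 - (b.2 - a.2) * d.1) := by
  unfold orient
  simp only [Prod.fst_add, Prod.snd_add, Prod.smul_fst, Prod.smul_snd, smul_eq_mul]
  ring

theorem continuous_orient (a b : ℝ × ℝ) : Continuous (orient a b) := by
  unfold orient; fun_prop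

variable {n : ℕ}

def K (P : Fin n → ℝ × ℝ) (T : Finset (Fin n × Fin n)) : Set (ℝ × ℝ) :=
  {x | ∀ e ∈ T, 0 ≤ orient (P e.1) (P e.2) x}

def C (P : Fin n → ℝ × ℝ) (T : Finset (Fin n × Fin n)) : Set (ℝ × ℝ) :=
  {x | ∀ e ∈ T, 0 < orient (P e.1) (P e.2) x}

theorem C_subset_K (P : Fin n → ℝ × ℝ) (T : Finset (Fin n × Fin n)) : C P T ⊆ K P T :=
  fun _ hx e he => (hx e he).le

theorem K_anti (P : Fin n → ℝ × ℝ) {T T' : Finset (Fin n × Fin n)} (h : T ⊆ T') :
    K P T' ⊆ K P T := fun _ hx e he => hx e (h he)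

theorem convex_K (P : Fin n → ℝ × ℝ) (T : Finset (Fin n × Fin n)) : Convex ℝ (K P T) := by
  intro x hx y hy a b ha hb hab e he
  rw [orient_comb _ _ _ _ hab]
  have := hx e he
  have := hy e he
  positivity

theorem convex_C (P : Fin n → ℝ × ℝ) (T : Finset (Fin n × Fin n)) : Convex ℝ (C P T) := by
  intro x hx y hy a b ha hb hab e he
  rw [orient_comb _ _ _ _ hab]
  have h1 := hx e he
  have h2 := hy e he
  rcases ha.eq_or_lt with h | h
  · have : b = 1 := by linarith
    subst this; rw [← h]; simpa using h2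
  · have : 0 ≤ b * orient (P e.1) (P e.2) y := by positivity
    have : 0 < a * orient (P e.1) (P e.2) x := by positivity
    linarith

theorem isClosed_K (P : Fin n → ℝ × ℝ) (T : Finset (Fin n × Fin n)) : IsClosed (K P T) := by
  have : K P T = ⋂ e ∈ T, {x | 0 ≤ orient (P e.1) (P e.2) x} := by
    ext x; simp [K]
  rw [this]
  exact isClosed_biInter fun e _ => isClosed_le continuous_const (continuous_orient _ _)

theorem isOpen_C (P : Fin n → ℝ × ℝ) (T : Finset (Fin n × Fin n)) : IsOpen (C P T) := by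
  have : C P T = ⋂ e ∈ T, {x | 0 < orient (P e.1) (P e.2) x} := by
    ext x; simp [C]
  rw [this]
  exact isOpen_biInter_finset fun e _ => isOpen_lt continuous_const (continuous_orient _ _)

theorem mem_C_of {P : Fin n → ℝ × ℝ} {T : Finset (Fin n × Fin n)} {x y : ℝ × ℝ}
    (hx : x ∈ C P T) (hy : y ∈ K P T) {a b : ℝ} (ha : 0 < a) (hb : 0 ≤ b) (hab : a + b = 1) :
    a • x + b • y ∈ C P T := by
  intro e he
  rw [orient_comb _ _ _ _ hab]
  have h1 := hx e he
  have h2 := hy e he
  have : 0 ≤ b * orient (P e.1) (P e.2) y := by positivity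
  have : 0 < a * orient (P e.1) (P e.2) x := by positivity
  linarith

theorem K_subset_closure {P : Fin n → ℝ × ℝ} {T : Finset (Fin n × Fin n)}
    (h : (C P T).Nonempty) : K P T ⊆ closure (C P T) := by
  obtain ⟨x, hx⟩ := h
  intro y hy
  have hf : Continuous (fun a : ℝ => a • x + (1 - a) • y) := by fun_prop
  have ht : Filter.Tendsto (fun a : ℝ => a • x + (1 - a) • y) (nhdsWithin 0 (Set.Ioi 0))
      (nhds y) := by
    have := (hf.tendsto 0).mono_left (nhdsWithin_le_nhds (s := Set.Ioi (0:ℝ)))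
    simpa using this
  refine mem_closure_of_tendsto ht ?_
  have : Set.Ioc (0:ℝ) 1 ∈ nhdsWithin (0:ℝ) (Set.Ioi 0) := Ioc_mem_nhdsGT (by norm_num)
  filter_upwards [this] with a ha
  exact mem_C_of hx hy ha.1 (by linarith [ha.2]) (by ring)

theorem closure_C {P : Fin n → ℝ × ℝ} {T : Finset (Fin n × Fin n)}
    (h : (C P T).Nonempty) : closure (C P T) = K P T :=
  Subset.antisymm (closure_minimal (C_subset_K P T) (isClosed_K P T)) (K_subset_closure h)

/-- An extreme point of a closed cell lies on two distinct lines of the family. -/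
theorem two_lines {P : Fin n → ℝ × ℝ} {T : Finset (Fin n × Fin n)} {s : ℝ × ℝ}
    (hs : s ∈ (K P T).extremePoints ℝ) (hT : ∀ e ∈ T, P e.1 ≠ P e.2) :
    ∃ e ∈ T, ∃ f ∈ T, orient (P e.1) (P e.2) s = 0 ∧ orient (P f.1) (P f.2) s = 0 ∧
      f ≠ e ∧ f ≠ e.swap := by
  classical
  by_contra hcon
  push Not at hcon
  -- choose a direction
  obtain ⟨d, hd0, hd⟩ : ∃ d : ℝ × ℝ, d ≠ 0 ∧ ∀ e ∈ T, orient (P e.1) (P e.2) s = 0 →
      ((P e.2).1 - (P e.1).1) * d.2 - ((P e.2).2 - (P e.1).2) * d.1 = 0 := by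
    by_cases h : ∃ e ∈ T, orient (P e.1) (P e.2) s = 0
    · obtain ⟨e, he, hes⟩ := h
      refine ⟨P e.2 - P e.1, sub_ne_zero.mpr (hT e he).symm, ?_⟩
      intro f hf hfs
      by_cases hfe : f = e
      · subst hfe
        simp only [Prod.snd_sub, Prod.fst_sub]; ring
      · have := hcon e he f hf hes hfs hfe
        rw [this]
        simp only [Prod.snd_sub, Prod.fst_sub, Prod.fst_swap, Prod.snd_swap]; ring
    · push Not at h
      refine ⟨(1, 0), by simp, ?_⟩
      intro f hf hfs
      exact absurd hfs (h f hf)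
  -- small step
  have hev : ∀ v : ℝ × ℝ, (∀ e ∈ T, orient (P e.1) (P e.2) s = 0 →
      ((P e.2).1 - (P e.1).1) * v.2 - ((P e.2).2 - (P e.1).2) * v.1 = 0) →
      ∀ᶠ t in nhdsWithin (0:ℝ) (Set.Ioi 0), s + t • v ∈ K P T := by
    intro v hv
    have : ∀ᶠ t in nhdsWithin (0:ℝ) (Set.Ioi 0), ∀ e ∈ T,
        0 ≤ orient (P e.1) (P e.2) (s + t • v) := by
      rw [Filter.eventually_all_finset]
      intro e he
      have h0 : 0 ≤ orient (P e.1) (P e.2) s := hs.1 e he
      rcases h0.eq_or_lt with h | h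
      · refine Filter.Eventually.of_forall fun t => ?_
        rw [orient_add, ← h, hv e he h.symm]; simp
      · have hc : Continuous (fun t : ℝ => orient (P e.1) (P e.2) (s + t • v)) :=
          (continuous_orient _ _).comp (by fun_prop)
        have h1 : ∀ᶠ t in nhds (0:ℝ), 0 < orient (P e.1) (P e.2) (s + t • v) := by
          apply (hc.tendsto 0).eventually_const_lt
          simpa using h
        exact (h1.filter_mono nhdsWithin_le_nhds).mono fun t ht => ht.le
    exact this
  have h1 := hev d hd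
  have h2 := hev (-d) (by
    intro e he h
    have := hd e he h
    simp only [Prod.snd_neg, Prod.fst_neg]
    linarith)
  have h3 : ∀ᶠ t in nhdsWithin (0:ℝ) (Set.Ioi 0), 0 < t := self_mem_nhdsWithin
  obtain ⟨t, ht1, ht2, ht3⟩ := (h1.and (h2.and h3)).exists
  have hmem : s ∈ openSegment ℝ (s + t • d) (s + t • (-d)) :=
    ⟨1/2, 1/2, by norm_num, by norm_num, by norm_num, by
      rw [smul_neg]; module⟩
  have := (mem_extremePoints.mp hs).2 _ ht1 _ ht2 hmem
  have h4 : t • d = 0 := by simpa using this.1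
  rcases smul_eq_zero.mp h4 with h | h
  · exact ht3.ne' h
  · exact hd0 h

end Pool.Agent.H52CD
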