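import Pool.Agent.H52CD.Tri

set_option autoImplicit false

open Set

namespace Pool.Agent.H52CD

/-- Convex polygon with vertices indexed by natural numbers `< n`. -/
def CcwN (P : ℕ → ℝ × ℝ) (n : ℕ) : Prop :=
  ∀ i j k, i < j → j < k → k < n → 0 < orient (P i) (P j) (P k)

/-- The region of a 5-tuple. -/
def Rq (P : ℕ → ℝ × ℝ) (q : Fin 5 → ℕ) : Set (ℝ × ℝ) :=
  R (P (q 0)) (P (q 1)) (P (q 2)) (P (q 3)) (P (q 4))

def Inc (q : Fin 5 → ℕ) (n : ℕ) : Prop :=
  q 0 < q 1 ∧ q 1 < q 2 ∧ q 2 < q 3 ∧ q 3 < q 4 ∧ q 4 < n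

/-- The consecutive 5-tuple starting at `s`. -/
def fine (s : ℕ) : Fin 5 → ℕ := fun i => s + i.val

theorem fine_strict {P : ℕ → ℝ × ℝ} {n : ℕ} (h : CcwN P n) {s : ℕ} (hs : s + 4 < n) {x : ℝ × ℝ}
    (hx : x ∈ Rq P (fine s)) {u v : ℝ × ℝ} (k1 : 0 ≤ orient u v (P (s + 1)))
    (k2 : 0 ≤ orient u v (P (s + 3)))
    (k3 : 0 < orient u v (P (s + 1)) + orient u v (P (s + 3)))
    (k4 : 0 < orient u v (X (P s) (P (s + 1)) (P (s + 3)) (P (s + 4)))) :
    0 < orient u v x := by
  have hF : Four (P s) (P (s + 1)) (P (s + 3)) (P (s + 4)) :=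
    ⟨h _ _ _ (by omega) (by omega) (by omega), h _ _ _ (by omega) (by omega) (by omega),
      h _ _ _ (by omega) (by omega) (by omega), h _ _ _ (by omega) (by omega) (by omega)⟩
  obtain ⟨g1, g2, g3, g4, g5, g6⟩ := hx
  simp only [fine] at g1 g2 g3 g4 g5 g6
  refine strict hF g2 g4 g5 ?_ ?_ k1 k2 k3 k4
  · rintro rfl
    have h5 := h s (s + 1) (s + 2) (by omega) (by omega) (by omega)
    have h6 : orient (P s) (P (s + 2)) (P (s + 1)) = - orient (P s) (P (s + 1)) (P (s + 2)) :=
      orient_swap' _ _ _
    have h7 : 0 ≤ orient (P s) (P (s + 2)) (P (s + 1)) := g1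
    linarith
  · rintro rfl
    have h5 := h (s + 2) (s + 3) (s + 4) (by omega) (by omega) (by omega)
    have h6 : orient (P (s + 2)) (P (s + 4)) (P (s + 3)) =
      - orient (P (s + 2)) (P (s + 3)) (P (s + 4)) := orient_swap' _ _ _
    have h7 : 0 ≤ orient (P (s + 2)) (P (s + 4)) (P (s + 3)) := g3
    linarith

theorem four_fine {P : ℕ → ℝ × ℝ} {n : ℕ} (h : CcwN P n) {s : ℕ} (hs : s + 4 < n) :
    Four (P s) (P (s + 1)) (P (s + 3)) (P (s + 4)) :=
  ⟨h _ _ _ (by omega) (by omega) (by omega), h _ _ _ (by omega) (by omega) (by omega),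
    h _ _ _ (by omega) (by omega) (by omega), h _ _ _ (by omega) (by omega) (by omega)⟩

theorem fine_fine {P : ℕ → ℝ × ℝ} {n : ℕ} (h : CcwN P n) {s s' : ℕ} (hs : s + 2 ≤ s')
    (hs' : s' + 4 < n) : Disjoint (Rq P (fine s)) (Rq P (fine s')) := by
  rw [Set.disjoint_left]
  intro x hx hx'
  have a1 : 0 ≤ orient (P s) (P (s + 3)) (P (s' + 1)) := by
    by_cases e : s' + 1 = s + 3
    · rw [e]; simp
    · exact (h _ _ _ (by omega) (by omega) (by omega)).le
  have a2 : 0 < orient (P s) (P (s + 3)) (P (s' + 3)) :=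
    h _ _ _ (by omega) (by omega) (by omega)
  have a3 : 0 < orient (P s) (P (s + 3)) (P (s' + 4)) :=
    h _ _ _ (by omega) (by omega) (by omega)
  have := fine_strict h hs' hx' a1 a2.le (by linarith)
    (X_pos_bd (four_fine h hs') a1 a3.le (by linarith))
  obtain ⟨g1, g2, g3, g4, g5, g6⟩ := hx
  have h7 : 0 ≤ orient (P (s + 3)) (P s) x := g4
  rw [orient_swap] at h7
  linarith

theorem coarse_fine {P : ℕ → ℝ × ℝ} {n : ℕ} (h : CcwN P n) {q : Fin 5 → ℕ} (hq : Inc q n)
    (he : ∀ i, Even (q i)) {s : ℕ} (hse : Even s) (hs : s + 4 < n) :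
    Disjoint (Rq P q) (Rq P (fine s)) := by
  rw [Set.disjoint_left]
  intro x hx hx'
  obtain ⟨g1, g2, g3, g4, g5, g6⟩ := hx
  obtain ⟨l1, l2, l3, l4, l5⟩ := hq
  obtain ⟨e0, he0⟩ := he 0
  obtain ⟨e1, he1⟩ := he 1
  obtain ⟨e2, he2⟩ := he 2
  obtain ⟨e3, he3⟩ := he 3
  obtain ⟨e4, he4⟩ := he 4
  obtain ⟨r, hr⟩ := hse
  generalize q 0 = a at *
  generalize q 1 = b at *
  generalize q 2 = c at *
  generalize q 3 = d at *
  generalize q 4 = e at *
  -- middle cases
  have mid : ∀ u w : ℕ, u ≤ s → s + 3 < w → w < n → 0 ≤ orient (P u) (P w) x → False := by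
    intro u w hu hw hwn h0
    have pos : ∀ m, u < m → m < w → 0 < orient (P w) (P u) (P m) := by
      intro m h1 h2
      rw [orient_rot]
      exact h _ _ _ h1 h2 hwn
    have nn : 0 ≤ orient (P w) (P u) (P s) := by
      by_cases e : s = u
      · rw [e]; simp
      · exact (pos s (by omega) (by omega)).le
    have p1 := pos (s + 1) (by omega) (by omega)
    have p3 := pos (s + 3) (by omega) (by omega)
    have := fine_strict h hs hx' p1.le p3.le (by linarith)
      (X_pos_ac (four_fine h hs) nn p3.le (by linarith))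
    rw [orient_swap] at this
    linarith
  rcases lt_or_ge (s + 2) b with hv | hv
  · have pos : ∀ m, m < b → 0 < orient (P b) (P e) (P m) := by
      intro m h1
      rw [← orient_rot]
      exact h _ _ _ h1 (by omega) (by omega)
    have p0 := pos s (by omega)
    have p1 := pos (s + 1) (by omega)
    have p3 := pos (s + 3) (by omega)
    have := fine_strict h hs hx' p1.le p3.le (by linarith)
      (X_pos_ac (four_fine h hs) p0.le p3.le (by linarith))
    rw [orient_swap] at this
    linarith
  rcases lt_or_ge (s + 2) c with hv2 | hv2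
  · exact mid a c (by omega) (by omega) (by omega) g1
  rcases lt_or_ge (s + 2) d with hv3 | hv3
  · exact mid b d (by omega) (by omega) (by omega) g2
  rcases lt_or_ge (s + 2) e with hv4 | hv4
  · exact mid c e (by omega) (by omega) (by omega) g3
  · have pos : ∀ m, d < m → m < n → 0 < orient (P a) (P d) (P m) := by
      intro m h1 h2
      exact h _ _ _ (by omega) h1 h2
    have nn : 0 ≤ orient (P a) (P d) (P s) := by
      by_cases e : s = d
      · rw [e]; simp
      · exact (pos s (by omega) (by omega)).le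
    have p1 := pos (s + 1) (by omega) (by omega)
    have p3 := pos (s + 3) (by omega) (by omega)
    have := fine_strict h hs hx' p1.le p3.le (by linarith)
      (X_pos_ac (four_fine h hs) nn p3.le (by linarith))
    rw [orient_swap] at this
    linarith

/-- Number of regions found. -/
def M (n : ℕ) : ℕ := if h : n < 5 then 0 else (n - 3) / 2 + M ((n + 1) / 2)
termination_by n
decreasing_by omega

theorem M_bound (n : ℕ) : n ≤ M n + 2 + 2 * Nat.log 2 (n - 1) := by
  induction n using Nat.strong_induction_on with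
  | _ n ih =>
    rw [M]
    split_ifs with h
    · by_cases h2 : n ≤ 2
      · omega
      · have := Nat.log_pos (b := 2) (n := n - 1) (by norm_num) (by omega)
        omega
    · have h1 := ih ((n + 1) / 2) (by omega)
      have h2 : (n + 1) / 2 - 1 = (n - 1) / 2 := by omega
      rw [h2] at h1
      have h3 : Nat.log 2 (n - 1) = Nat.log 2 ((n - 1) / 2) + 1 := by
        rw [Nat.log_div_base, Nat.sub_add_cancel]
        exact Nat.log_pos (by norm_num) (by omega)
      omega

theorem family (n : ℕ) : ∀ P : ℕ → ℝ × ℝ, CcwN P n → ∃ (ι : Type) (_ : Fintype ι)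
    (q : ι → Fin 5 → ℕ), Fintype.card ι = M n ∧ (∀ i, Inc (q i) n) ∧
      ∀ i j, i ≠ j → Disjoint (Rq P (q i)) (Rq P (q j)) := by
  induction n using Nat.strong_induction_on with
  | _ n ih =>
    intro P hP
    by_cases h5 : n < 5
    · refine ⟨Empty, inferInstance, fun i => i.elim, ?_, fun i => i.elim, fun i => i.elim⟩
      rw [M]; simp [h5]
    · have hP' : CcwN (fun i => P (2 * i)) ((n + 1) / 2) := by
        intro i j k h1 h2 h3
        exact hP _ _ _ (by omega) (by omega) (by omega)
      obtain ⟨ι, hι, q, hcard, hinc, hdis⟩ := ih ((n + 1) / 2) (by omega) _ hP'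
      refine ⟨Fin ((n - 3) / 2) ⊕ ι, inferInstance,
        Sum.elim (fun s => fine (2 * s.val)) (fun i k => 2 * q i k), ?_, ?_, ?_⟩
      · rw [Fintype.card_sum, Fintype.card_fin, hcard]
        conv_rhs => rw [M]
        simp [h5]
      · rintro (s | i)
        · have := s.isLt
          simp only [Sum.elim_inl, Inc, fine]
          refine ⟨by simp, by simp, by simp, by simp, ?_⟩
          have : ((4 : Fin 5) : ℕ) = 4 := rfl
          omega
        · obtain ⟨l1, l2, l3, l4, l5⟩ := hinc i
          simp only [Sum.elim_inr, Inc]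
          omega
      · have hsym : ∀ (i : ι) (s : Fin ((n - 3) / 2)),
            Disjoint (Rq P (fun k => 2 * q i k)) (Rq P (fine (2 * s.val))) := by
          intro i s
          have := s.isLt
          obtain ⟨l1, l2, l3, l4, l5⟩ := hinc i
          refine coarse_fine (n := n) hP ?_ ?_ ?_ ?_
          · simp only [Inc]; omega
          · intro k; exact even_two_mul _
          · exact even_two_mul _
          · omega
        rintro (s | i) (t | j) hne
        · have hst : s ≠ t := fun e => hne (by rw [e])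
          have hst' : s.val ≠ t.val := fun e => hst (Fin.ext e)
          have h1 := s.isLt
          have h2 := t.isLt
          simp only [Sum.elim_inl]
          rcases lt_or_gt_of_ne hst' with h3 | h3
          · exact fine_fine hP (by omega) (by omega)
          · exact (fine_fine hP (by omega) (by omega)).symm
        · exact (hsym j s).symm
        · exact hsym i t
        · have hij : i ≠ j := fun e => hne (by rw [e])
          exact hdis i j hij

end Pool.Agent.H52CD
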