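import Pool.Agent.H52CD.Step

set_option autoImplicit false

open Set

namespace Pool.Agent.H52CD

variable {n : ℕ}

theorem easy {P : Fin n → ℝ × ℝ} {T₀ T : Finset (Fin n × Fin n)}
    (hI : Inv P T₀ T) {i j : Fin n} (hij : i ≠ j)
    (hall : ∀ x ∈ C P T, 0 < orient (P i) (P j) x) : Inv P T₀ (insert (i, j) T) := by
  classical
  have hK : K P (insert (i, j) T) = K P T := by
    apply Subset.antisymm (K_anti P (Finset.subset_insert _ _))
    intro y hy e he
    rcases Finset.mem_insert.mp he with rfl | he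
    · have h1 : y ∈ closure (C P T) := K_subset_closure hI.non hy
      have h2 : closure (C P T) ⊆ {x | 0 ≤ orient (P i) (P j) x} :=
        closure_minimal (fun x hx => (hall x hx).le)
          (isClosed_le continuous_const (continuous_orient _ _))
      exact h2 h1
    · exact hy e he
  obtain ⟨x, hx⟩ := hI.non
  refine ⟨hI.sub.trans (Finset.subset_insert _ _), ?_, ⟨x, ?_⟩, ?_⟩
  · intro e he
    rcases Finset.mem_insert.mp he with rfl | he
    · exact hij
    · exact hI.ne e he
  · intro e he
    rcases Finset.mem_insert.mp he with rfl | he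
    · exact hall x hx
    · exact hx e he
  · rw [hK]; exact hI.five

theorem pert {P : Fin n → ℝ × ℝ} {T : Finset (Fin n × Fin n)} {i j : Fin n}
    (hij : P i ≠ P j) {y : ℝ × ℝ} (hy : y ∈ C P T) (h0 : orient (P i) (P j) y = 0) :
    (∃ p ∈ C P T, 0 < orient (P i) (P j) p) ∧ (∃ q ∈ C P T, orient (P i) (P j) q < 0) := by
  set d := P j - P i with hd
  have hd0 : 0 < d.1 ^ 2 + d.2 ^ 2 := by
    have : d ≠ 0 := sub_ne_zero.mpr hij.symm
    by_contra hcon
    apply this
    have h1 : d.1 ^ 2 = 0 := by nlinarith [sq_nonneg d.1, sq_nonneg d.2]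
    have h2 : d.2 ^ 2 = 0 := by nlinarith [sq_nonneg d.1, sq_nonneg d.2]
    exact Prod.ext (by simpa using pow_eq_zero_iff (two_ne_zero) |>.mp h1)
      (by simpa using pow_eq_zero_iff (two_ne_zero) |>.mp h2)
  have key : ∀ v : ℝ × ℝ, ∃ t : ℝ, 0 < t ∧ y + t • v ∈ C P T := by
    intro v
    have hc : Continuous (fun t : ℝ => y + t • v) := by fun_prop
    have h1 : ∀ᶠ t in nhds (0:ℝ), y + t • v ∈ C P T := by
      apply hc.continuousAt.eventually_mem
      simpa using (isOpen_C P T).mem_nhds hy
    have h2 : ∀ᶠ t in nhdsWithin (0:ℝ) (Set.Ioi 0), 0 < t := self_mem_nhdsWithin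
    obtain ⟨t, ht, ht0⟩ := ((h1.filter_mono nhdsWithin_le_nhds).and h2).exists
    exact ⟨t, ht0, ht⟩
  have hd1 : d.1 = (P j).1 - (P i).1 := by simp [hd]
  have hd2 : d.2 = (P j).2 - (P i).2 := by simp [hd]
  constructor
  · obtain ⟨t, ht, hm⟩ := key (-d.2, d.1)
    refine ⟨_, hm, ?_⟩
    rw [orient_add, h0, ← hd1, ← hd2]
    have : 0 < t * (d.1 ^ 2 + d.2 ^ 2) := by positivity
    simp only
    nlinarith
  · obtain ⟨t, ht, hm⟩ := key (d.2, -d.1)
    refine ⟨_, hm, ?_⟩
    rw [orient_add, h0, ← hd1, ← hd2]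
    have : 0 < t * (d.1 ^ 2 + d.2 ^ 2) := by positivity
    simp only
    nlinarith

theorem step {P : Fin n → ℝ × ℝ} {T₀ T : Finset (Fin n × Fin n)} (h : Good P T₀)
    (hI : Inv P T₀ T) {i j : Fin n} (hij : i ≠ j) :
    Inv P T₀ (insert (i, j) T) ∨ Inv P T₀ (insert (j, i) T) := by
  classical
  by_cases hA : ∀ x ∈ C P T, 0 < orient (P i) (P j) x
  · exact Or.inl (easy hI hij hA)
  by_cases hB : ∀ x ∈ C P T, 0 < orient (P j) (P i) x
  · exact Or.inr (easy hI hij.symm hB)
  push Not at hA hB
  obtain ⟨x, hx, hx0⟩ := hA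
  obtain ⟨y, hy, hy0⟩ := hB
  rw [orient_swap] at hy0
  have hy0' : 0 ≤ orient (P i) (P j) y := by linarith
  obtain ⟨p, hp, hp0⟩ : ∃ p ∈ C P T, 0 < orient (P i) (P j) p := by
    rcases hy0'.eq_or_lt with h1 | h1
    · exact (pert (h.inj i j hij) hy h1.symm).1
    · exact ⟨y, hy, h1⟩
  obtain ⟨q, hq, hq0⟩ : ∃ q ∈ C P T, orient (P i) (P j) q < 0 := by
    rcases hx0.eq_or_lt with h1 | h1
    · exact (pert (h.inj i j hij) hx h1).2
    · exact ⟨x, hx, h1⟩
  obtain ⟨S, hSc, hS⟩ := hI.five
  have hz : ∀ s ∈ S, orient (P i) (P j) s ≠ 0 := by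
    intro s hs h0
    have hse := hS (Finset.mem_coe.mpr hs)
    have hsK : s ∈ K P T₀ := K_anti P hI.sub (extremePoints_subset hse)
    obtain ⟨e, he, f, hf, he0, hf0, h1, h2⟩ :=
      two_lines hse (fun e he => h.inj _ _ (hI.ne e he))
    have hne : ∀ g ∈ T, (i, j) ≠ g ∧ (i, j) ≠ g.swap := by
      intro g hg
      constructor
      · rintro rfl
        have := hq _ hg
        simp only at this
        linarith
      · intro hh
        have hg' : g = (j, i) := by rw [← Prod.swap_swap g, ← hh]; rfl
        subst hg'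
        have := hp _ hg
        simp only at this
        rw [orient_swap] at this
        linarith
    exact no_three h hsK (hI.ne e he) (hI.ne f hf) (g := (i, j)) hij he0 hf0 h0 h1 h2
      (hne e he).1 (hne e he).2 (hne f hf).1 (hne f hf).2
  have hcard := Finset.card_filter_add_card_filter_not (s := S)
    (fun s => 0 < orient (P i) (P j) s)
  by_cases h3 : 3 ≤ (S.filter fun s => 0 < orient (P i) (P j) s).card
  · left
    refine half h hI hij hp hq hp0 hq0 h3 ?_
    intro s hs
    obtain ⟨h1, h2⟩ := Finset.mem_filter.mp hs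
    exact ⟨hS (Finset.mem_coe.mpr h1), h2⟩
  · right
    have h3' : 3 ≤ (S.filter fun s => ¬ 0 < orient (P i) (P j) s).card := by omega
    refine half h hI hij.symm hq hp (by rw [orient_swap]; linarith)
      (by rw [orient_swap]; linarith) h3' ?_
    intro s hs
    obtain ⟨h1, h2⟩ := Finset.mem_filter.mp hs
    refine ⟨hS (Finset.mem_coe.mpr h1), ?_⟩
    rw [orient_swap]
    have := hz s h1
    rcases lt_or_gt_of_ne this with h4 | h4
    · linarith
    · exact absurd h4 h2

theorem complete {P : Fin n → ℝ × ℝ} {T₀ : Finset (Fin n × Fin n)} (h : Good P T₀)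
    (hI : Inv P T₀ T₀) (A : Finset (Fin n × Fin n)) :
    ∃ T, Inv P T₀ T ∧ ∀ e ∈ A, e.1 ≠ e.2 → e ∈ T ∨ e.swap ∈ T := by
  classical
  induction A using Finset.induction_on with
  | empty => exact ⟨T₀, hI, by simp⟩
  | insert e A _ ih =>
    obtain ⟨T, hT, hTA⟩ := ih
    by_cases he : e.1 = e.2
    · refine ⟨T, hT, ?_⟩
      intro f hf hf'
      rcases Finset.mem_insert.mp hf with rfl | hf
      · exact absurd he hf'
      · exact hTA f hf hf'
    · rcases step h hT he with h1 | h1
      · refine ⟨_, h1, ?_⟩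
        intro f hf hf'
        rcases Finset.mem_insert.mp hf with rfl | hf
        · left; exact Finset.mem_insert_self _ _
        · rcases hTA f hf hf' with h2 | h2
          · left; exact Finset.mem_insert_of_mem h2
          · right; exact Finset.mem_insert_of_mem h2
      · refine ⟨_, h1, ?_⟩
        intro f hf hf'
        rcases Finset.mem_insert.mp hf with rfl | hf
        · right; exact Finset.mem_insert_self _ _
        · rcases hTA f hf hf' with h2 | h2
          · left; exact Finset.mem_insert_of_mem h2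
          · right; exact Finset.mem_insert_of_mem h2

/-- A complete cell is a face. -/
theorem face_of_complete {P : Fin n → ℝ × ℝ} {T₀ T : Finset (Fin n × Fin n)} (h : Good P T₀)
    (hn : 2 ≤ n) (hI : Inv P T₀ T) (hc : ∀ i j : Fin n, i ≠ j → (i, j) ∈ T ∨ (j, i) ∈ T) :
    ∃ F ⊆ K P T₀, F.Nonempty ∧ IsBoundedFace P F ∧
      5 ≤ ((closure F).extremePoints ℝ).encard := by
  classical
  obtain ⟨x, hx⟩ := hI.non
  have hdisj : C P T ⊆ (edges P)ᶜ := by
    intro y hy hye
    simp only [edges, mem_iUnion] at hye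
    obtain ⟨i, j, hij⟩ := hye
    have main : ∀ a b : Fin n, a ≠ b → orient (P a) (P b) y ≠ 0 := by
      intro a b hab h0
      rcases hc a b hab with h1 | h1
      · have := hy _ h1; simp only at this; linarith
      · have := hy _ h1; simp only at this; rw [orient_swap] at this; linarith
    by_cases hij' : i = j
    · subst hij'
      rw [segment_same] at hij
      have hy' : y = P i := hij
      obtain ⟨k, hk⟩ : ∃ k : Fin n, i ≠ k := by
        have : Nontrivial (Fin n) := Fin.nontrivial_iff_two_le.mpr hn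
        obtain ⟨k, hk⟩ := exists_ne i
        exact ⟨k, hk.symm⟩
      exact main i k hk (by rw [hy']; simp)
    · obtain ⟨a, b, ha, hb, hab, rfl⟩ := hij
      apply main i j hij'
      rw [orient_comb _ _ _ _ hab]; simp
  have hcover : (edges P)ᶜ ⊆ C P T ∪ (K P T)ᶜ := by
    intro y hy
    by_cases hyK : y ∈ K P T
    · left
      intro e he
      have h1 := hyK e he
      rcases h1.eq_or_lt with h2 | h2
      · exfalso
        apply hy
        have := h.hs y (K_anti P hI.sub hyK) e.1 e.2 (hI.ne e he) h2.symm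
        simp only [edges, mem_iUnion]
        exact ⟨_, _, this⟩
      · exact h2
    · right; exact hyK
  have heq : C P T = connectedComponentIn (edges P)ᶜ x := by
    apply Subset.antisymm
    · exact (convex_C P T).isPreconnected.subset_connectedComponentIn hx hdisj
    · have h1 : IsPreconnected (connectedComponentIn (edges P)ᶜ x) :=
        isPreconnected_connectedComponentIn
      have h2 : connectedComponentIn (edges P)ᶜ x ⊆ C P T ∪ (K P T)ᶜ :=
        (connectedComponentIn_subset _ _).trans hcover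
      have h3 : x ∈ connectedComponentIn (edges P)ᶜ x := mem_connectedComponentIn (hdisj hx)
      refine h1.subset_left_of_subset_union (isOpen_C P T) (isClosed_K P T).isOpen_compl ?_ h2
        ⟨x, h3, hx⟩
      rw [Set.disjoint_left]
      intro z hz hz'
      exact hz' (C_subset_K P T hz)
  refine ⟨C P T, (C_subset_K P T).trans (K_anti P hI.sub), ⟨x, hx⟩, ⟨?_, x, hdisj hx, heq⟩, ?_⟩
  · exact h.bdd.subset ((C_subset_K P T).trans (K_anti P hI.sub))
  · rw [closure_C hI.non]
    obtain ⟨S, hSc, hS⟩ := hI.five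
    have := Set.encard_le_encard hS
    rw [Set.encard_coe_eq_coe_finsetCard, hSc] at this
    exact this

theorem exists_face {P : Fin n → ℝ × ℝ} {T₀ : Finset (Fin n × Fin n)} (h : Good P T₀)
    (hn : 2 ≤ n) (hI : Inv P T₀ T₀) :
    ∃ F ⊆ K P T₀, F.Nonempty ∧ IsBoundedFace P F ∧
      5 ≤ ((closure F).extremePoints ℝ).encard := by
  obtain ⟨T, hT, hTA⟩ := complete h hI Finset.univ
  exact face_of_complete h hn hT (fun i j hij => hTA (i, j) (Finset.mem_univ _) hij)

end Pool.Agent.H52CD
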