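import Pool.Agent.H52CD.Count

set_option autoImplicit false

open Set

namespace Pool.Agent.H52CD

variable {n : ℕ}

def mult (P : Fin n → ℝ × ℝ) : Set (ℝ × ℝ) := {x | 3 ≤ (through P x).encard}

def big (P : Fin n → ℝ × ℝ) : Set (Set (ℝ × ℝ)) :=
  {F | IsBoundedFace P F ∧ 5 ≤ ((closure F).extremePoints ℝ).encard}

theorem count {P : Fin n → ℝ × ℝ} (h : Ccw P) :
    (n : ℕ∞) ≤ (mult P).encard + (big P).encard + 2 + 2 * (Nat.log 2 (n - 1) : ℕ) := by
  classical
  set Q : ℕ → ℝ × ℝ := fun i => if hi : i < n then P ⟨i, hi⟩ else 0 with hQ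
  have hQP : ∀ i (hi : i < n), Q i = P ⟨i, hi⟩ := fun i hi => by simp [hQ, hi]
  have hc : CcwN Q n := by
    intro i j k h1 h2 h3
    rw [hQP i (by omega), hQP j (by omega), hQP k h3]
    exact h _ _ _ (by rw [Fin.lt_def]; exact h1) (by rw [Fin.lt_def]; exact h2)
  obtain ⟨ι, hι, q, hcard, hinc, hdis⟩ := family n Q hc
  -- each region contains a multiple point or a big face
  have key : ∀ i, (∃ x ∈ Rq Q (q i), x ∈ mult P) ∨ ∃ F ⊆ Rq Q (q i), F.Nonempty ∧ F ∈ big P := by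
    intro i
    obtain ⟨l1, l2, l3, l4, l5⟩ := hinc i
    have := pentagram h (i₁ := ⟨q i 0, by omega⟩) (i₂ := ⟨q i 1, by omega⟩)
      (i₃ := ⟨q i 2, by omega⟩) (i₄ := ⟨q i 3, by omega⟩) (i₅ := ⟨q i 4, l5⟩)
      (by rw [Fin.lt_def]; exact l1) (by rw [Fin.lt_def]; exact l2)
      (by rw [Fin.lt_def]; exact l3) (by rw [Fin.lt_def]; exact l4)
    unfold Rq
    rw [hQP (q i 0) (by omega), hQP (q i 1) (by omega), hQP (q i 2) (by omega),
      hQP (q i 3) (by omega), hQP (q i 4) l5]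
    rcases this with ⟨x, hx, hx'⟩ | ⟨F, hF, hne, hF1, hF2⟩
    · exact Or.inl ⟨x, hx, hx'⟩
    · exact Or.inr ⟨F, hF, hne, hF1, hF2⟩
  set A : Finset ι := Finset.univ.filter fun i => ∃ x ∈ Rq Q (q i), x ∈ mult P with hA
  set B : Finset ι := Finset.univ.filter fun i => ¬ ∃ x ∈ Rq Q (q i), x ∈ mult P with hB
  have hAB : A.card + B.card = M n := by
    rw [hA, hB, Finset.card_filter_add_card_filter_not, Finset.card_univ, hcard]
  have hAle : (A.card : ℕ∞) ≤ (mult P).encard := by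
    have hch : ∀ i : ι, ∃ x, i ∈ A → x ∈ Rq Q (q i) ∧ x ∈ mult P := by
      intro i
      by_cases hi : i ∈ A
      · obtain ⟨x, hx, hx'⟩ := (Finset.mem_filter.mp hi).2
        exact ⟨x, fun _ => ⟨hx, hx'⟩⟩
      · exact ⟨0, fun h => absurd h hi⟩
    choose g hg using hch
    have hinj : Set.InjOn g (A : Set ι) := by
      intro i hi j hj hij
      by_contra hne
      exact Set.disjoint_left.mp (hdis i j hne) (hg i hi).1 (hij ▸ (hg j hj).1)
    calc (A.card : ℕ∞) = (A : Set ι).encard := by rw [Set.encard_coe_eq_coe_finsetCard]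
      _ = (g '' (A : Set ι)).encard := (hinj.encard_image).symm
      _ ≤ (mult P).encard := Set.encard_le_encard (by
          rintro _ ⟨i, hi, rfl⟩; exact (hg i hi).2)
  have hBle : (B.card : ℕ∞) ≤ (big P).encard := by
    have hch : ∀ i : ι, ∃ F : Set (ℝ × ℝ), i ∈ B → F ⊆ Rq Q (q i) ∧ F.Nonempty ∧ F ∈ big P := by
      intro i
      by_cases hi : i ∈ B
      · rcases key i with h1 | ⟨F, hF, hne, hF'⟩
        · exact absurd h1 (Finset.mem_filter.mp hi).2
        · exact ⟨F, fun _ => ⟨hF, hne, hF'⟩⟩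
      · exact ⟨∅, fun h => absurd h hi⟩
    choose g hg using hch
    have hinj : Set.InjOn g (B : Set ι) := by
      intro i hi j hj hij
      by_contra hne
      obtain ⟨x, hx⟩ := (hg i hi).2.1
      exact Set.disjoint_left.mp (hdis i j hne) ((hg i hi).1 hx)
        ((hg j hj).1 (hij ▸ hx))
    calc (B.card : ℕ∞) = (B : Set ι).encard := by rw [Set.encard_coe_eq_coe_finsetCard]
      _ = (g '' (B : Set ι)).encard := (hinj.encard_image).symm
      _ ≤ (big P).encard := Set.encard_le_encard (by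
          rintro _ ⟨i, hi, rfl⟩; exact (hg i hi).2.2)
  have hb := M_bound n
  calc (n : ℕ∞) ≤ ((M n + 2 + 2 * Nat.log 2 (n - 1) : ℕ) : ℕ∞) := by exact_mod_cast hb
    _ = (A.card : ℕ∞) + B.card + 2 + 2 * (Nat.log 2 (n - 1) : ℕ) := by
        rw [← hAB]; push_cast; ring
    _ ≤ _ := by gcongr

end Pool.Agent.H52CD
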