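import Pool.Agent.H52CD.Base

set_option autoImplicit false

open Set

namespace Pool.Agent.H52CD

variable {n : ℕ}

theorem corner_extreme {a b c d e : ℝ × ℝ} (h : Five a b c d e) {R : Set (ℝ × ℝ)}
    (h1R : ∀ x ∈ R, 0 ≤ orient a c x) (h2R : ∀ x ∈ R, 0 ≤ orient b d x)
    (hX : X a b c d ∈ R) : X a b c d ∈ R.extremePoints ℝ := by
  have hc := corner h
  have hD : orient a c d - orient a c b ≠ 0 := by
    have h1 := h.acd
    have h2 := h.abc
    rw [orient_swap' a b c]
    linarith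
  rw [mem_extremePoints]
  refine ⟨hX, ?_⟩
  rintro x hx y hy ⟨s, t, hs, ht, hst, hxy⟩
  have e1 := hc.1
  have e2 := hc.2.1
  rw [← hxy, orient_comb _ _ _ _ hst] at e1 e2
  have a1 := mul_nonneg hs.le (h1R x hx)
  have a2 := mul_nonneg ht.le (h1R y hy)
  have a3 := mul_nonneg hs.le (h2R x hx)
  have a4 := mul_nonneg ht.le (h2R y hy)
  have b1 : orient a c x = 0 := by
    rcases mul_eq_zero.mp (show s * orient a c x = 0 by linarith) with h5 | h5
    · exact absurd h5 hs.ne'
    · exact h5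
  have b2 : orient a c y = 0 := by
    rcases mul_eq_zero.mp (show t * orient a c y = 0 by linarith) with h5 | h5
    · exact absurd h5 ht.ne'
    · exact h5
  have b3 : orient b d x = 0 := by
    rcases mul_eq_zero.mp (show s * orient b d x = 0 by linarith) with h5 | h5
    · exact absurd h5 hs.ne'
    · exact h5
  have b4 : orient b d y = 0 := by
    rcases mul_eq_zero.mp (show t * orient b d y = 0 by linarith) with h5 | h5
    · exact absurd h5 ht.ne'
    · exact h5
  exact ⟨uniq hD b1 b3 hc.1 hc.2.1, uniq hD b2 b4 hc.1 hc.2.1⟩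

/-- The closed inner pentagon of five points in convex position (with one redundant side). -/
def R (a b c d e : ℝ × ℝ) : Set (ℝ × ℝ) :=
  {x | 0 ≤ orient a c x ∧ 0 ≤ orient b d x ∧ 0 ≤ orient c e x ∧ 0 ≤ orient d a x ∧
    0 ≤ orient e b x ∧ 0 ≤ orient e a x}

theorem five_ext {a b c d e : ℝ × ℝ} (h : Five a b c d e) :
    (∃ S : Finset (ℝ × ℝ), S.card = 5 ∧ (S : Set (ℝ × ℝ)) ⊆ (R a b c d e).extremePoints ℝ) ∧
    ∃ x, 0 < orient a c x ∧ 0 < orient b d x ∧ 0 < orient c e x ∧ 0 < orient d a x ∧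
      0 < orient e b x ∧ 0 < orient e a x := by
  classical
  have r1 := h.rot
  have r2 := r1.rot
  have r3 := r2.rot
  have r4 := r3.rot
  obtain ⟨v11, v12, v13, v14, v15⟩ := corner h
  obtain ⟨v22, v23, v24, v25, v21⟩ := corner r1
  obtain ⟨v33, v34, v35, v31, v32⟩ := corner r2
  obtain ⟨v44, v45, v41, v42, v43⟩ := corner r3
  obtain ⟨v55, v51, v52, v53, v54⟩ := corner r4
  have eab : 0 < orient e a b := by rw [orient_rot]; exact h.abe
  have eac : 0 < orient e a c := by rw [orient_rot]; exact h.ace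
  have ead : 0 < orient e a d := by rw [orient_rot]; exact h.ade
  have abc := h.abc
  have abd := h.abd
  have bcd := h.bcd
  have bce := h.bce
  have cde := h.cde
  have w1 : 0 < orient e a (X a b c d) := X_pos h.bcd h.abd _ _ (by
    simp only [orient_right]; positivity)
  have w2 : 0 < orient e a (X b c d e) := X_pos r1.bcd r1.abd _ _ (by
    have := r1.bcd; have := r1.abd; positivity)
  have w3 : 0 < orient e a (X c d e a) := X_pos r2.bcd r2.abd _ _ (by
    have := r2.bcd; have := r2.abd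
    simp only [orient_left]; positivity)
  have w4 : 0 < orient e a (X d e a b) := X_pos r3.bcd r3.abd _ _ (by
    have := r3.bcd; have := r3.abd
    simp only [orient_right]; positivity)
  have w5 : 0 < orient e a (X e a b c) := X_pos r4.bcd r4.abd _ _ (by
    have := r4.bcd; have := r4.abd
    simp only [orient_left]; positivity)
  set q1 := X a b c d
  set q2 := X b c d e
  set q3 := X c d e a
  set q4 := X d e a b
  set q5 := X e a b c
  have m1 : q1 ∈ R a b c d e := ⟨v11.ge, v12.ge, v13.le, v14.le, v15.le, w1.le⟩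
  have m2 : q2 ∈ R a b c d e := ⟨v21.le, v22.ge, v23.ge, v24.le, v25.le, w2.le⟩
  have m3 : q3 ∈ R a b c d e := ⟨v31.le, v32.le, v33.ge, v34.ge, v35.le, w3.le⟩
  have m4 : q4 ∈ R a b c d e := ⟨v41.le, v42.le, v43.le, v44.ge, v45.ge, w4.le⟩
  have m5 : q5 ∈ R a b c d e := ⟨v51.ge, v52.le, v53.le, v54.le, v55.ge, w5.le⟩
  have n12 : q1 ≠ q2 := fun hh => by rw [hh] at v11; linarith
  have n13 : q1 ≠ q3 := fun hh => by rw [hh] at v11; linarith
  have n14 : q1 ≠ q4 := fun hh => by rw [hh] at v11; linarith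
  have n15 : q1 ≠ q5 := fun hh => by rw [hh] at v12; linarith
  have n23 : q2 ≠ q3 := fun hh => by rw [hh] at v22; linarith
  have n24 : q2 ≠ q4 := fun hh => by rw [hh] at v22; linarith
  have n25 : q2 ≠ q5 := fun hh => by rw [hh] at v22; linarith
  have n34 : q3 ≠ q4 := fun hh => by rw [hh] at v33; linarith
  have n35 : q3 ≠ q5 := fun hh => by rw [hh] at v33; linarith
  have n45 : q4 ≠ q5 := fun hh => by rw [hh] at v44; linarith
  constructor
  · refine ⟨{q1, q2, q3, q4, q5}, ?_, ?_⟩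
    · rw [Finset.card_insert_of_notMem (by simp [n12, n13, n14, n15]),
        Finset.card_insert_of_notMem (by simp [n23, n24, n25]),
        Finset.card_insert_of_notMem (by simp [n34, n35]),
        Finset.card_insert_of_notMem (by simp [n45]), Finset.card_singleton]
    · intro x hx
      simp only [Finset.coe_insert, Finset.coe_singleton, mem_insert_iff,
        mem_singleton_iff] at hx
      rcases hx with rfl | rfl | rfl | rfl | rfl
      · exact corner_extreme h (fun x hx => hx.1) (fun x hx => hx.2.1) m1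
      · exact corner_extreme r1 (fun x hx => hx.2.1) (fun x hx => hx.2.2.1) m2
      · exact corner_extreme r2 (fun x hx => hx.2.2.1) (fun x hx => hx.2.2.2.1) m3
      · exact corner_extreme r3 (fun x hx => hx.2.2.2.1) (fun x hx => hx.2.2.2.2.1) m4
      · exact corner_extreme r4 (fun x hx => hx.2.2.2.2.1) (fun x hx => hx.1) m5
  · refine ⟨(1/2 : ℝ) • q1 + (1/2 : ℝ) • q3, ?_⟩
    have hh : (1/2 : ℝ) + 1/2 = 1 := by norm_num
    simp only [orient_comb _ _ _ _ hh]
    refine ⟨?_, ?_, ?_, ?_, ?_, ?_⟩ <;> linarith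

theorem tri_mem {a c e x : ℝ × ℝ} {H : Set (ℝ × ℝ)} (hH : Convex ℝ H) (ha : a ∈ H) (hc : c ∈ H)
    (he : e ∈ H) (h0 : 0 < orient a c e) (h1 : 0 ≤ orient a c x) (h2 : 0 ≤ orient c e x)
    (h3 : 0 ≤ orient e a x) : x ∈ H := by
  have hx : x = (orient c e x / orient a c e) • a + (orient e a x / orient a c e) • c +
      (orient a c x / orient a c e) • e := by
    apply Prod.ext
    · simp only [Prod.fst_add, Prod.smul_fst, smul_eq_mul]
      field_simp
      unfold orient; ring
    · simp only [Prod.snd_add, Prod.smul_snd, smul_eq_mul]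
      field_simp
      unfold orient; ring
  have hsum : orient c e x / orient a c e + orient e a x / orient a c e +
      orient a c x / orient a c e = 1 := by
    field_simp
    unfold orient; ring
  have := hH.sum_mem (t := Finset.univ)
    (w := ![orient c e x / orient a c e, orient e a x / orient a c e,
      orient a c x / orient a c e]) (z := ![a, c, e])
    (by
      intro i _
      fin_cases i
      · simp; positivity
      · simp; positivity
      · simp; positivity)
    (by simp [Fin.sum_univ_three]; linarith)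
    (by
      intro i _
      fin_cases i
      · simpa using ha
      · simpa using hc
      · simpa using he)
  simp only [Fin.sum_univ_three, Matrix.cons_val_zero, Matrix.cons_val_one,
    Matrix.cons_val_two, Matrix.head_cons, Matrix.tail_cons] at this
  rw [hx]; exact this

theorem five_of_lt {P : Fin n → ℝ × ℝ} (h : Ccw P) {i₁ i₂ i₃ i₄ i₅ : Fin n} (h1 : i₁ < i₂)
    (h2 : i₂ < i₃) (h3 : i₃ < i₄) (h4 : i₄ < i₅) :
    Five (P i₁) (P i₂) (P i₃) (P i₄) (P i₅) :=
  ⟨h _ _ _ h1 h2, h _ _ _ h1 (h2.trans h3), h _ _ _ h1 (h2.trans (h3.trans h4)),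
    h _ _ _ (h1.trans h2) h3, h _ _ _ (h1.trans h2) (h3.trans h4),
    h _ _ _ (h1.trans (h2.trans h3)) h4, h _ _ _ h2 h3, h _ _ _ h2 (h3.trans h4),
    h _ _ _ (h2.trans h3) h4, h _ _ _ h3 h4⟩

/-- The starting family. -/
def T₀ (i₁ i₂ i₃ i₄ i₅ : Fin n) : Finset (Fin n × Fin n) :=
  {(i₁, i₃), (i₂, i₄), (i₃, i₅), (i₄, i₁), (i₅, i₂), (i₅, i₁)}

theorem K_T₀ (P : Fin n → ℝ × ℝ) (i₁ i₂ i₃ i₄ i₅ : Fin n) :
    K P (T₀ i₁ i₂ i₃ i₄ i₅) = R (P i₁) (P i₂) (P i₃) (P i₄) (P i₅) := by
  ext x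
  simp only [K, R, T₀, Finset.forall_mem_insert, Finset.mem_singleton, forall_eq]

theorem inner_sub_hull {P : Fin n → ℝ × ℝ} (h : Ccw P) {i₁ i₂ i₃ i₄ i₅ : Fin n} (h1 : i₁ < i₂)
    (h2 : i₂ < i₃) (h3 : i₃ < i₄) (h4 : i₄ < i₅) {x : ℝ × ℝ}
    (hx : x ∈ R (P i₁) (P i₂) (P i₃) (P i₄) (P i₅)) : x ∈ convexHull ℝ (range P) := by
  have hF := five_of_lt h h1 h2 h3 h4
  exact tri_mem (convex_convexHull ℝ _) (subset_convexHull ℝ _ ⟨i₁, rfl⟩)
    (subset_convexHull ℝ _ ⟨i₃, rfl⟩) (subset_convexHull ℝ _ ⟨i₅, rfl⟩) hF.ace hx.1 hx.2.2.1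
    hx.2.2.2.2.2

theorem vertex_not_mem {P : Fin n → ℝ × ℝ} (h : Ccw P) {i₁ i₂ i₃ i₄ i₅ : Fin n} (h1 : i₁ < i₂)
    (h2 : i₂ < i₃) (h3 : i₃ < i₄) (h4 : i₄ < i₅) (m : Fin n) :
    P m ∉ R (P i₁) (P i₂) (P i₃) (P i₄) (P i₅) := by
  rintro ⟨g1, g2, g3, g4, g5, g6⟩
  rcases lt_or_ge m i₂ with hm | hm
  · have := h m i₂ i₅ hm (h2.trans (h3.trans h4))
    have h5 : orient (P i₅) (P i₂) (P m) = - orient (P m) (P i₂) (P i₅) := by
      unfold orient; ring
    linarith
  rcases lt_or_ge m i₃ with hm' | hm'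
  · have := h i₁ m i₃ (h1.trans_le hm) hm'
    have h5 : orient (P i₁) (P i₃) (P m) = - orient (P i₁) (P m) (P i₃) := by
      unfold orient; ring
    linarith
  rcases lt_or_ge m i₄ with hm'' | hm''
  · have := h i₂ m i₄ (h2.trans_le hm') hm''
    have h5 : orient (P i₂) (P i₄) (P m) = - orient (P i₂) (P m) (P i₄) := by
      unfold orient; ring
    linarith
  rcases lt_or_ge m i₅ with hm3 | hm3
  · have := h i₃ m i₅ (h3.trans_le hm'') hm3
    have h5 : orient (P i₃) (P i₅) (P m) = - orient (P i₃) (P m) (P i₅) := by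
      unfold orient; ring
    linarith
  · have := h i₁ i₄ m (h1.trans (h2.trans h3)) (h4.trans_le hm3)
    have h5 : orient (P i₄) (P i₁) (P m) = - orient (P i₁) (P i₄) (P m) := by
      unfold orient; ring
    linarith

theorem pentagram {P : Fin n → ℝ × ℝ} (h : Ccw P) {i₁ i₂ i₃ i₄ i₅ : Fin n} (h1 : i₁ < i₂)
    (h2 : i₂ < i₃) (h3 : i₃ < i₄) (h4 : i₄ < i₅) :
    (∃ x ∈ R (P i₁) (P i₂) (P i₃) (P i₄) (P i₅), 3 ≤ (through P x).encard) ∨
    ∃ F ⊆ R (P i₁) (P i₂) (P i₃) (P i₄) (P i₅), F.Nonempty ∧ IsBoundedFace P F ∧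
      5 ≤ ((closure F).extremePoints ℝ).encard := by
  classical
  by_cases hcon : ∃ x ∈ R (P i₁) (P i₂) (P i₃) (P i₄) (P i₅), 3 ≤ (through P x).encard
  · exact Or.inl hcon
  right
  push Not at hcon
  have hF := five_of_lt h h1 h2 h3 h4
  have hn : 3 ≤ n := by
    have := i₅.isLt
    have := Fin.lt_def.mp h1
    have := Fin.lt_def.mp h2
    have := Fin.lt_def.mp h3
    have := Fin.lt_def.mp h4
    omega
  have hK := K_T₀ P i₁ i₂ i₃ i₄ i₅
  have hG : Good P (T₀ i₁ i₂ i₃ i₄ i₅) := by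
    refine ⟨ccw_inj h hn, ?_, ?_, ?_, ?_⟩
    · rw [hK]
      refine Bornology.IsBounded.subset ?_ (fun x hx => inner_sub_hull h h1 h2 h3 h4 hx)
      rw [isBounded_convexHull]
      exact (Set.finite_range P).isBounded
    · rw [hK]; exact vertex_not_mem h h1 h2 h3 h4
    · rw [hK]
      intro x hx i j hij h0
      exact seg_of_hull h hn (inner_sub_hull h h1 h2 h3 h4 hx) hij h0
    · rw [hK]
      intro x hx
      exact not_le.mpr (hcon x hx)
  obtain ⟨hfive, y, hy⟩ := five_ext hF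
  have hI : Inv P (T₀ i₁ i₂ i₃ i₄ i₅) (T₀ i₁ i₂ i₃ i₄ i₅) := by
    refine ⟨Finset.Subset.refl _, ?_, ⟨y, ?_⟩, ?_⟩
    · intro e he
      simp only [T₀, Finset.mem_insert, Finset.mem_singleton] at he
      rcases he with rfl | rfl | rfl | rfl | rfl | rfl
      · exact (h1.trans h2).ne
      · exact (h2.trans h3).ne
      · exact (h3.trans h4).ne
      · exact (h1.trans (h2.trans h3)).ne'
      · exact (h2.trans (h3.trans h4)).ne'
      · exact (h1.trans (h2.trans (h3.trans h4))).ne'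
    · intro e he
      simp only [T₀, Finset.mem_insert, Finset.mem_singleton] at he
      rcases he with rfl | rfl | rfl | rfl | rfl | rfl
      · exact hy.1
      · exact hy.2.1
      · exact hy.2.2.1
      · exact hy.2.2.2.1
      · exact hy.2.2.2.2.1
      · exact hy.2.2.2.2.2
    · rw [hK]; exact hfive
  have := exists_face hG (by omega) hI
  rwa [hK] at this

end Pool.Agent.H52CD
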