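import Pool.Agent.H52CD.Basic

set_option autoImplicit false

open Set

namespace Pool.Agent.H52CD

variable {n : ℕ}

/-- Standing hypotheses on the closed region `K P T₀`. -/
structure Good (P : Fin n → ℝ × ℝ) (T₀ : Finset (Fin n × Fin n)) : Prop where
  inj : ∀ i j, i ≠ j → P i ≠ P j
  bdd : Bornology.IsBounded (K P T₀)
  nv : ∀ m, P m ∉ K P T₀
  hs : ∀ x ∈ K P T₀, ∀ i j, i ≠ j → orient (P i) (P j) x = 0 → x ∈ segment ℝ (P i) (P j)
  nm : ∀ x ∈ K P T₀, ¬ 3 ≤ (through P x).encard

/-- The invariant. -/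
structure Inv (P : Fin n → ℝ × ℝ) (T₀ T : Finset (Fin n × Fin n)) : Prop where
  sub : T₀ ⊆ T
  ne : ∀ e ∈ T, e.1 ≠ e.2
  non : (C P T).Nonempty
  five : ∃ S : Finset (ℝ × ℝ), S.card = 5 ∧ (S : Set (ℝ × ℝ)) ⊆ (K P T).extremePoints ℝ

theorem mem_openSegment_of {P : Fin n → ℝ × ℝ} {T₀ : Finset (Fin n × Fin n)} (h : Good P T₀)
    {x : ℝ × ℝ} (hx : x ∈ K P T₀) {i j : Fin n} (hij : i ≠ j)
    (h0 : orient (P i) (P j) x = 0) : x ∈ openSegment ℝ (P i) (P j) := by
  have h1 := h.hs x hx i j hij h0
  rw [← insert_endpoints_openSegment] at h1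
  rcases h1 with rfl | rfl | h1
  · exact absurd hx (h.nv i)
  · exact absurd hx (h.nv j)
  · exact h1

/-- the unordered pair as an ordered one -/
def srt (e : Fin n × Fin n) : Fin n × Fin n := if e.1 < e.2 then e else e.swap

theorem srt_lt {e : Fin n × Fin n} (h : e.1 ≠ e.2) : (srt e).1 < (srt e).2 := by
  unfold srt; split_ifs with h1
  · exact h1
  · exact lt_of_le_of_ne (not_lt.mp h1) h.symm

theorem srt_eq {e f : Fin n × Fin n} (h : srt e = srt f) : f = e ∨ f = e.swap := by
  unfold srt at h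
  split_ifs at h with h1 h2
  · left; exact h.symm
  · right; rw [h]; simp
  · right; exact h.symm
  · left; have := congrArg Prod.swap h; simpa using this.symm

theorem mem_through {P : Fin n → ℝ × ℝ} {T₀ : Finset (Fin n × Fin n)} (h : Good P T₀)
    {x : ℝ × ℝ} (hx : x ∈ K P T₀) {e : Fin n × Fin n} (hij : e.1 ≠ e.2)
    (h0 : orient (P e.1) (P e.2) x = 0) : srt e ∈ through P x := by
  refine ⟨srt_lt hij, ?_⟩
  have := mem_openSegment_of h hx hij h0
  unfold srt; split_ifs with h1
  · exact this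
  · rw [openSegment_symm]; exact this

/-- three distinct lines through a point of the region are impossible -/
theorem no_three {P : Fin n → ℝ × ℝ} {T₀ : Finset (Fin n × Fin n)} (h : Good P T₀)
    {x : ℝ × ℝ} (hx : x ∈ K P T₀) {e f g : Fin n × Fin n} (he : e.1 ≠ e.2) (hf : f.1 ≠ f.2)
    (hg : g.1 ≠ g.2) (he0 : orient (P e.1) (P e.2) x = 0) (hf0 : orient (P f.1) (P f.2) x = 0)
    (hg0 : orient (P g.1) (P g.2) x = 0) (h1 : f ≠ e) (h2 : f ≠ e.swap)
    (h3 : g ≠ e) (h4 : g ≠ e.swap) (h5 : g ≠ f) (h6 : g ≠ f.swap) : False := by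
  classical
  apply h.nm x hx
  have hsub : ({srt e, srt f, srt g} : Set (Fin n × Fin n)) ⊆ through P x := by
    intro z hz
    rcases hz with rfl | rfl | rfl
    · exact mem_through h hx he he0
    · exact mem_through h hx hf hf0
    · exact mem_through h hx hg hg0
  refine le_trans ?_ (Set.encard_le_encard hsub)
  have e1 : srt e ≠ srt f := fun hh => by rcases srt_eq hh with h | h <;> tauto
  have e2 : srt e ≠ srt g := fun hh => by rcases srt_eq hh with h | h <;> tauto
  have e3 : srt f ≠ srt g := fun hh => by rcases srt_eq hh with h | h <;> tauto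
  rw [Set.encard_insert_of_notMem (by simp [e1, e2]), Set.encard_pair e3]
  norm_num

/-- One half of the cut. -/
theorem half {P : Fin n → ℝ × ℝ} {T₀ T : Finset (Fin n × Fin n)} (h : Good P T₀)
    (hI : Inv P T₀ T) {i j : Fin n} (hij : i ≠ j) {p q : ℝ × ℝ} (hp : p ∈ C P T)
    (hq : q ∈ C P T) (hp0 : 0 < orient (P i) (P j) p) (hq0 : orient (P i) (P j) q < 0)
    {S : Finset (ℝ × ℝ)} (hS3 : 3 ≤ S.card)
    (hS : ∀ s ∈ S, s ∈ (K P T).extremePoints ℝ ∧ 0 < orient (P i) (P j) s) :
    Inv P T₀ (insert (i, j) T) := by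
  classical
  set T' := insert (i, j) T with hT'
  have hmemK : ∀ x, x ∈ K P T' ↔ 0 ≤ orient (P i) (P j) x ∧ x ∈ K P T := by
    intro x
    simp only [K, hT', Finset.forall_mem_insert, mem_setOf_eq]
  have hKsub : K P T' ⊆ K P T := fun x hx => ((hmemK x).mp hx).2
  refine ⟨hI.sub.trans (Finset.subset_insert _ _), ?_, ⟨p, ?_⟩, ?_⟩
  · intro e he
    rcases Finset.mem_insert.mp he with rfl | he
    · exact hij
    · exact hI.ne e he
  · intro e he
    rcases Finset.mem_insert.mp he with rfl | he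
    · exact hp0
    · exact hp e he
  -- the chord
  set Z := {x | x ∈ K P T ∧ orient (P i) (P j) x = 0} with hZ
  have hZK : Z ⊆ K P T' := fun x hx => (hmemK x).mpr ⟨hx.2.ge, hx.1⟩
  have hZc : Convex ℝ Z := by
    intro x hx y hy a b ha hb hab
    refine ⟨convex_K P T hx.1 hy.1 ha hb hab, ?_⟩
    rw [orient_comb _ _ _ _ hab, hx.2, hy.2]; ring
  have hZcl : IsClosed Z := (isClosed_K P T).inter
    (isClosed_eq (continuous_orient _ _) continuous_const)
  have hZb : Bornology.IsBounded Z :=
    h.bdd.subset (fun x hx => K_anti P hI.sub hx.1)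
  have hZco : IsCompact Z := Metric.isCompact_of_isClosed_isBounded hZcl hZb
  -- a point in the open chord
  obtain ⟨z, hz, hz0⟩ : ∃ z ∈ C P T, orient (P i) (P j) z = 0 := by
    set u := orient (P i) (P j) p
    set w := orient (P i) (P j) q
    have hd : 0 < u - w := by linarith
    have hab : (-w / (u - w)) + (u / (u - w)) = 1 := by field_simp; ring
    refine ⟨(-w / (u - w)) • p + (u / (u - w)) • q, ?_, ?_⟩
    · exact mem_C_of hp (C_subset_K P T hq) (by apply div_pos <;> linarith)
        (by positivity) hab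
    · rw [orient_comb _ _ _ _ hab]
      change (-w / (u - w)) * u + (u / (u - w)) * w = 0
      field_simp; ring
  obtain ⟨z', hz', hzz'⟩ : ∃ z' ∈ Z, z' ≠ z := by
    have hc : Continuous (fun t : ℝ => z + t • (P j - P i)) := by fun_prop
    have h1 : ∀ᶠ t in nhds (0:ℝ), z + t • (P j - P i) ∈ C P T := by
      apply hc.continuousAt.eventually_mem
      simpa using (isOpen_C P T).mem_nhds hz
    have h2 : ∀ᶠ t in nhdsWithin (0:ℝ) (Set.Ioi 0), 0 < t := self_mem_nhdsWithin
    obtain ⟨t, ht, ht0⟩ := ((h1.filter_mono nhdsWithin_le_nhds).and h2).exists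
    refine ⟨_, ⟨C_subset_K P T ht, ?_⟩, ?_⟩
    · rw [orient_add, hz0]; simp only [Prod.snd_sub, Prod.fst_sub]; ring
    · intro hh
      have : t • (P j - P i) = 0 := by simpa using hh
      rcases smul_eq_zero.mp this with h3 | h3
      · exact ht0.ne' h3
      · exact h.inj i j hij (sub_eq_zero.mp h3).symm
  have hzZ : z ∈ Z := ⟨C_subset_K P T hz, hz0⟩
  -- two extreme points of the chord
  obtain ⟨a, ha, b, hb, hab⟩ : ∃ a ∈ Z.extremePoints ℝ, ∃ b ∈ Z.extremePoints ℝ, a ≠ b := by
    by_contra hcon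
    push Not at hcon
    have hKM := closure_convexHull_extremePoints hZco hZc
    have hss : (Z.extremePoints ℝ).Subsingleton := fun a ha b hb => hcon a ha b hb
    have : Z.Subsingleton := by
      rw [← hKM]
      rcases hss.eq_empty_or_singleton with h1 | ⟨c, h1⟩
      · rw [h1]; simp
      · rw [h1]; simp
    exact hzz' (this hz' hzZ)
  have hext : IsExtreme ℝ (K P T') Z := by
    refine ⟨hZK, ?_⟩
    intro x hx y hy w hw hwxy
    obtain ⟨s, t, hs, ht, hst, rfl⟩ := hwxy
    have h0 := hw.2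
    rw [orient_comb _ _ _ _ hst] at h0
    have hx0 := ((hmemK x).mp hx).1
    have hy0 := ((hmemK y).mp hy).1
    have h1 : 0 ≤ s * orient (P i) (P j) x := by positivity
    have h2 : 0 ≤ t * orient (P i) (P j) y := by positivity
    have h3 : s * orient (P i) (P j) x = 0 := by linarith
    have h4 : orient (P i) (P j) x = 0 := by
      rcases mul_eq_zero.mp h3 with h5 | h5
      · exact absurd h5 hs.ne'
      · exact h5
    exact ⟨hKsub hx, h4⟩
  have hext' := hext.extremePoints_subset_extremePoints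
  -- the new set
  obtain ⟨S3, hS3S, hS3c⟩ := Finset.exists_subset_card_eq hS3
  have haS : a ∉ S3 := fun hh => by
    have := (hS a (hS3S hh)).2
    have h2 := (extremePoints_subset ha).2
    linarith
  have hbS : b ∉ S3 := fun hh => by
    have := (hS b (hS3S hh)).2
    have h2 := (extremePoints_subset hb).2
    linarith
  refine ⟨insert a (insert b S3), ?_, ?_⟩
  · rw [Finset.card_insert_of_notMem (by simp [hab, haS]), Finset.card_insert_of_notMem hbS, hS3c]
  · intro x hx
    simp only [Finset.coe_insert, mem_insert_iff, Finset.mem_coe] at hx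
    rcases hx with rfl | rfl | hx
    · exact hext' ha
    · exact hext' hb
    · have h1 := hS x (hS3S hx)
      have h2 : x ∈ K P T' := (hmemK x).mpr ⟨h1.2.le, extremePoints_subset h1.1⟩
      exact inter_extremePoints_subset_extremePoints_of_subset hKsub ⟨h2, h1.1⟩

end Pool.Agent.H52CD
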