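import Pool.Agent.H52CD.Sym

set_option autoImplicit false

open Set

namespace Pool.Agent.H52CD

variable {n : ℕ}

/-- The triangle `a`, `d`, `X` (where `X` is the intersection of `ac` and `bd`). -/
theorem strict' {a b c d x : ℝ × ℝ} (h : Four a b c d) (h1 : 0 ≤ orient a c x)
    (h2 : 0 ≤ orient b d x) (h3 : 0 ≤ orient d a x) (hxa : x ≠ a) (hxd : x ≠ d) {u v : ℝ × ℝ}
    (k1 : 0 ≤ orient u v a) (k2 : 0 ≤ orient u v d) (k3 : 0 < orient u v a + orient u v d)
    (k4 : 0 < orient u v (X a b c d)) : 0 < orient u v x := by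
  set q := X a b c d with hq
  have hS : 0 < orient b c d + orient a b d := by have := h.bcd; have := h.abd; linarith
  have hD : 0 < orient a q d := by
    have e : orient a q d = orient d a q := by rw [orient_rot, orient_rot]
    rw [e]
    apply X_pos_ac h
    · simp
    · rw [orient_rot]; exact h.acd.le
    · have : orient d a c = orient a c d := by rw [orient_rot]
      rw [this]; simpa using h.acd
  have e1 : (orient b c d + orient a b d) * orient q d x = orient a c d * orient b d x := by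
    have h5 : orient q d x = orient d x q := by rw [orient_rot]
    rw [h5, X_eval h.bcd h.abd]
    unfold orient; ring
  have e2 : (orient b c d + orient a b d) * orient a q x = orient a b d * orient a c x := by
    have h5 : orient a q x = orient x a q := by rw [orient_rot, orient_rot]
    rw [h5, X_eval h.bcd h.abd]
    unfold orient; ring
  have g1 : 0 ≤ orient q d x := by
    have h6 : 0 ≤ (orient b c d + orient a b d) * orient q d x := by
      rw [e1]; exact mul_nonneg h.acd.le h2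
    exact nonneg_of_mul_nonneg_right h6 hS
  have g2 : 0 ≤ orient a q x := by
    have h6 : 0 ≤ (orient b c d + orient a b d) * orient a q x := by
      rw [e2]; exact mul_nonneg h.abd.le h1
    exact nonneg_of_mul_nonneg_right h6 hS
  set α := orient q d x / orient a q d with hα
  set β := orient a q x / orient a q d with hβ
  set γ := orient d a x / orient a q d with hγ
  have α0 : 0 ≤ α := by positivity
  have β0 : 0 ≤ β := by positivity
  have γ0 : 0 ≤ γ := by positivity
  have hs : α + β + γ = 1 := by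
    rw [hα, hβ, hγ]; field_simp
    unfold orient; ring
  have hx : x = α • a + β • d + γ • q := by
    rw [hα, hβ, hγ]
    apply Prod.ext
    · simp only [Prod.fst_add, Prod.smul_fst, smul_eq_mul]
      field_simp
      unfold orient; ring
    · simp only [Prod.snd_add, Prod.smul_snd, smul_eq_mul]
      field_simp
      unfold orient; ring
  have e : orient u v x = α * orient u v a + β * orient u v d + γ * orient u v q := by
    conv_lhs => rw [hx]
    exact orient_comb3 _ _ _ _ _ hs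
  have p1 := mul_nonneg α0 k1
  have p2 := mul_nonneg β0 k2
  have p3 := mul_nonneg γ0 k4.le
  by_contra hcon
  push Not at hcon
  have z1 : α * orient u v a = 0 := by linarith
  have z2 : β * orient u v d = 0 := by linarith
  have z3 : γ * orient u v q = 0 := by linarith
  have hγ0 : γ = 0 := by
    rcases mul_eq_zero.mp z3 with h5 | h5
    · exact h5
    · exact absurd h5 k4.ne'
  rcases mul_eq_zero.mp z1 with h5 | h5
  · apply hxd
    have : β = 1 := by linarith
    rw [hx, h5, hγ0, this]; simp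
  · rcases mul_eq_zero.mp z2 with h6 | h6
    · apply hxa
      have : α = 1 := by linarith
      rw [hx, h6, hγ0, this]; simp
    · rw [h5, h6] at k3; linarith

/-- Which edges can pass through a point of the inner pentagon of `0,1,2,3,j`. -/
theorem classify' {P : Fin n → ℝ × ℝ} (h : Ccw P) {i0 i1 i2 i3 j : Fin n} (v0 : i0.val = 0)
    (v1 : i1.val = 1) (v2 : i2.val = 2) (v3 : i3.val = 3) (vj : 4 ≤ j.val) {x : ℝ × ℝ}
    (hx : x ∈ R (P i0) (P i1) (P i2) (P i3) (P j)) {e : Fin n × Fin n}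
    (he : e ∈ through P x) :
    (e.1 = i1 ∨ e.2 = i1) ∨ (e.1 = i2 ∨ e.2 = i2) ∨ e = (i0, i3) := by
  obtain ⟨a, b⟩ := e
  obtain ⟨hab, hx2⟩ := he
  simp only at hab hx2 ⊢
  by_contra hcon
  push Not at hcon
  obtain ⟨⟨c1, c2⟩, ⟨c3, c4⟩, c5⟩ := hcon
  have l01 : i0 < i1 := by rw [Fin.lt_def]; omega
  have l12 : i1 < i2 := by rw [Fin.lt_def]; omega
  have l23 : i2 < i3 := by rw [Fin.lt_def]; omega
  have l3j : i3 < j := by rw [Fin.lt_def]; omega
  have hF : Four (P i0) (P i1) (P i2) (P i3) :=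
    ⟨h _ _ _ l01 l12, h _ _ _ l01 (l12.trans l23),
      h _ _ _ (l01.trans l12) l23, h _ _ _ l12 l23⟩
  have nm := vertex_not_mem h l01 l12 l23 l3j
  have hx0 : x ≠ P i0 := by rintro rfl; exact nm i0 hx
  have hx3 : x ≠ P i3 := by rintro rfl; exact nm i3 hx
  obtain ⟨g1, g2, g3, g4, g5, g6⟩ := hx
  have h0 := orient_of_mem hx2
  have st : ∀ {u v : ℝ × ℝ}, 0 ≤ orient u v (P i0) → 0 ≤ orient u v (P i3) →
      0 < orient u v (P i0) + orient u v (P i3) → 0 < orient u v (X (P i0) (P i1) (P i2) (P i3)) →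
      0 < orient u v x := fun k1 k2 k3 k4 => strict' hF g1 g2 g4 hx0 hx3 k1 k2 k3 k4
  have hablt := Fin.lt_def.mp hab
  have hb1 : b.val ≠ 1 := fun hh => c2 (Fin.ext (by omega))
  have ha1 : a.val ≠ 1 := fun hh => c1 (Fin.ext (by omega))
  have hb2 : b.val ≠ 2 := fun hh => c4 (Fin.ext (by omega))
  have ha2 : a.val ≠ 2 := fun hh => c3 (Fin.ext (by omega))
  rcases Nat.lt_or_ge a.val 1 with ha | ha
  · -- a = 0
    have ea : a = i0 := Fin.ext (by omega)
    subst ea
    have hb3 : b.val ≠ 3 := fun hh => c5 (by rw [show b = i3 from Fin.ext (by omega)])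
    have p2 : 0 < orient (P b) (P a) (P i2) := by
      rw [orient_rot]
      exact h _ _ _ (by rw [Fin.lt_def]; omega) (by rw [Fin.lt_def]; omega)
    have p3 : 0 < orient (P b) (P a) (P i3) := by
      rw [orient_rot]
      exact h _ _ _ (by rw [Fin.lt_def]; omega) (by rw [Fin.lt_def]; omega)
    have := st (u := P b) (v := P a) (by simp) p3.le (by simpa using p3)
      (X_pos_ac hF (by simp) p2.le (by simpa using p2))
    rw [orient_swap] at this; linarith
  · -- a ≥ 3
    have p0 : 0 < orient (P a) (P b) (P i0) := by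
      rw [← orient_rot]
      exact h _ _ _ (by rw [Fin.lt_def]; omega) hab
    have p1 : 0 < orient (P a) (P b) (P i1) := by
      rw [← orient_rot]
      exact h _ _ _ (by rw [Fin.lt_def]; omega) hab
    have p3 : 0 ≤ orient (P a) (P b) (P i3) := by
      by_cases e3 : a = i3
      · rw [e3]; simp
      · have : a.val ≠ 3 := fun hh => e3 (Fin.ext (by omega))
        rw [← orient_rot]
        exact (h _ _ _ (by rw [Fin.lt_def]; omega) hab).le
    have := st p0.le p3 (by linarith) (X_pos_bd hF p1.le p3 (by linarith))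
    linarith

theorem at_most_one {P : Fin n → ℝ × ℝ} (h : Ccw P) {x : ℝ × ℝ} (v : Fin n) :
    ∀ a ∈ through P x, ∀ b ∈ through P x, (a.1 = v ∨ a.2 = v) →
      (b.1 = v ∨ b.2 = v) → a = b := by
  rintro ⟨a1, a2⟩ ⟨ha, ha'⟩ ⟨b1, b2⟩ ⟨hb, hb'⟩ hA hB
  simp only at ha ha' hb hb' hA hB
  by_contra hne
  rcases hA with rfl | rfl <;> rcases hB with rfl | rfl
  · exact ray (ne0 h ha.ne hb.ne (fun e => hne (by rw [e]))) ha' hb'
  · rw [openSegment_symm] at hb'
    exact ray (ne0 h ha.ne hb.ne' (by rintro rfl; exact absurd (ha.trans hb) (lt_irrefl _)))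
      ha' hb'
  · rw [openSegment_symm] at ha'
    exact ray (ne0 h ha.ne' hb.ne (by rintro rfl; exact absurd (ha.trans hb) (lt_irrefl _)))
      ha' hb'
  · rw [openSegment_symm] at ha' hb'
    exact ray (ne0 h ha.ne' hb.ne' (fun e => hne (by rw [e]))) ha' hb'

/-- The strip property for the consecutive vertices `0,1,2,3` and any other vertex `j`. -/
theorem strip0 {P : Fin n → ℝ × ℝ} (h : Ccw P) (hb : big P = ∅) {i0 i1 i2 i3 j : Fin n}
    (v0 : i0.val = 0) (v1 : i1.val = 1) (v2 : i2.val = 2) (v3 : i3.val = 3) (vj : 4 ≤ j.val) :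
    ∃ a b : Fin n, 4 ≤ a.val ∧ a ≤ j ∧ j ≤ b ∧ ∃ y, y ∈ openSegment ℝ (P i0) (P i3) ∧
      y ∈ openSegment ℝ (P i1) (P a) ∧ y ∈ openSegment ℝ (P i2) (P b) := by
  have l01 : i0 < i1 := by rw [Fin.lt_def]; omega
  have l12 : i1 < i2 := by rw [Fin.lt_def]; omega
  have l23 : i2 < i3 := by rw [Fin.lt_def]; omega
  have l3j : i3 < j := by rw [Fin.lt_def]; omega
  rcases pentagram h l01 l12 l23 l3j with ⟨x, hx, h3⟩ | ⟨F, _, _, hF1, hF2⟩
  swap
  · exfalso
    have : F ∈ big P := ⟨hF1, hF2⟩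
    rw [hb] at this
    exact this
  obtain ⟨t, ht, ht3⟩ := Set.exists_subset_encard_eq h3
  obtain ⟨e, f, g, hef, heg, hfg, rfl⟩ := Set.encard_eq_three.mp ht3
  have he : e ∈ through P x := ht (by simp)
  have hf : f ∈ through P x := ht (by simp)
  have hg : g ∈ through P x := ht (by simp)
  have ce := classify' h v0 v1 v2 v3 vj hx he
  have cf := classify' h v0 v1 v2 v3 vj hx hf
  have cg := classify' h v0 v1 v2 v3 vj hx hg
  have hT1 := at_most_one h (x := x) i1
  have hT2 := at_most_one h (x := x) i2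
  have main : (i0, i3) ∈ through P x ∧ (∃ a ∈ through P x, (a.1 = i1 ∨ a.2 = i1)) ∧
      ∃ a ∈ through P x, (a.1 = i2 ∨ a.2 = i2) := by
    rcases ce with ce | ce | ce <;> rcases cf with cf | cf | cf <;>
      rcases cg with cg | cg | cg <;>
      first
        | exact absurd (hT2 _ he _ hf ce cf) hef
        | exact absurd (hT2 _ he _ hg ce cg) heg
        | exact absurd (hT2 _ hf _ hg cf cg) hfg
        | exact absurd (hT1 _ he _ hf ce cf) hef
        | exact absurd (hT1 _ he _ hg ce cg) heg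
        | exact absurd (hT1 _ hf _ hg cf cg) hfg
        | exact absurd (ce.trans cf.symm) hef
        | exact absurd (ce.trans cg.symm) heg
        | exact absurd (cf.trans cg.symm) hfg
        | exact ⟨ce ▸ he, ⟨_, hf, cf⟩, ⟨_, hg, cg⟩⟩
        | exact ⟨ce ▸ he, ⟨_, hg, cg⟩, ⟨_, hf, cf⟩⟩
        | exact ⟨cf ▸ hf, ⟨_, he, ce⟩, ⟨_, hg, cg⟩⟩
        | exact ⟨cf ▸ hf, ⟨_, hg, cg⟩, ⟨_, he, ce⟩⟩
        | exact ⟨cg ▸ hg, ⟨_, he, ce⟩, ⟨_, hf, cf⟩⟩
        | exact ⟨cg ▸ hg, ⟨_, hf, cf⟩, ⟨_, he, ce⟩⟩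
  obtain ⟨⟨_, m03⟩, ⟨⟨a1, a2⟩, ⟨ha, ha'⟩, hA⟩, ⟨⟨b1, b2⟩, ⟨hb1, hb'⟩, hB⟩⟩ := main
  simp only at m03 ha ha' hA hb1 hb' hB
  -- the other endpoint of the edge at `i1`
  obtain ⟨a, ane, hya⟩ : ∃ a, a ≠ i1 ∧ x ∈ openSegment ℝ (P i1) (P a) := by
    rcases hA with rfl | rfl
    · exact ⟨a2, ha.ne', ha'⟩
    · rw [openSegment_symm] at ha'; exact ⟨a1, ha.ne, ha'⟩
  obtain ⟨b, bne, hyb⟩ : ∃ b, b ≠ i2 ∧ x ∈ openSegment ℝ (P i2) (P b) := by
    rcases hB with rfl | rfl
    · exact ⟨b2, hb1.ne', hb'⟩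
    · rw [openSegment_symm] at hb'; exact ⟨b1, hb1.ne, hb'⟩
  have a0 : a ≠ i0 := by
    rintro rfl
    rw [openSegment_symm] at hya
    exact ray (ne0 h l01.ne (l01.trans (l12.trans l23)).ne (l12.trans l23).ne) hya m03
  have a3 : a ≠ i3 := by
    rintro rfl
    rw [openSegment_symm] at hya m03
    exact ray (ne0 h (l12.trans l23).ne' (l01.trans (l12.trans l23)).ne' l01.ne') hya m03
  have b0 : b ≠ i0 := by
    rintro rfl
    rw [openSegment_symm] at hyb
    exact ray (ne0 h (l01.trans l12).ne (l01.trans (l12.trans l23)).ne l23.ne) hyb m03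
  have b3 : b ≠ i3 := by
    rintro rfl
    rw [openSegment_symm] at hyb m03
    exact ray (ne0 h l23.ne' (l01.trans (l12.trans l23)).ne' (l01.trans l12).ne') hyb m03
  have nm := vertex_not_mem h l01 l12 l23 l3j
  have hxR := hx
  obtain ⟨g1, g2, g3, g4, g5, g6⟩ := hx
  -- `x` is strictly on the inner side of the hull edge `1 2`
  have a2' : a ≠ i2 := by
    rintro rfl
    have o := orient_of_mem hya
    obtain ⟨s, t, hs, ht, hst, hxst⟩ := m03
    rw [← hxst, orient_comb _ _ _ _ hst] at o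
    have p0 : 0 < orient (P i1) (P a) (P i0) := by
      rw [← orient_rot]; exact h _ _ _ l01 l12
    have p3 := h _ _ _ l12 l23
    have := mul_pos hs p0
    have := mul_pos ht p3
    linarith
  have b1' : b ≠ i1 := by
    rintro rfl
    have o := orient_of_mem hyb
    obtain ⟨s, t, hs, ht, hst, hxst⟩ := m03
    rw [← hxst, orient_comb _ _ _ _ hst, orient_swap, orient_swap (P b)] at o
    have p0 : 0 < orient (P b) (P i2) (P i0) := by
      rw [← orient_rot]; exact h _ _ _ l01 l12
    have p3 := h _ _ _ l12 l23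
    have := mul_pos hs p0
    have := mul_pos ht p3
    linarith
  have av : a.val ≠ 0 ∧ a.val ≠ 1 ∧ a.val ≠ 2 ∧ a.val ≠ 3 :=
    ⟨fun e => a0 (Fin.ext (by omega)), fun e => ane (Fin.ext (by omega)),
      fun e => a2' (Fin.ext (by omega)), fun e => a3 (Fin.ext (by omega))⟩
  have bv : b.val ≠ 0 ∧ b.val ≠ 1 ∧ b.val ≠ 2 ∧ b.val ≠ 3 :=
    ⟨fun e => b0 (Fin.ext (by omega)), fun e => b1' (Fin.ext (by omega)),
      fun e => bne (Fin.ext (by omega)), fun e => b3 (Fin.ext (by omega))⟩
  refine ⟨a, b, by omega, ?_, ?_, x, m03, hya, hyb⟩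
  · by_contra hlt
    push Not at hlt
    obtain ⟨s, t, hs, ht, hst, hxst⟩ := hya
    rw [← hxst, orient_comb _ _ _ _ hst] at g5
    simp only [orient_right, mul_zero, zero_add] at g5
    have p := h i1 j a (l12.trans (l23.trans l3j)) hlt
    have e : orient (P j) (P i1) (P a) = - orient (P i1) (P j) (P a) := orient_swap _ _ _
    rw [e] at g5
    have := mul_pos ht p
    linarith
  · by_contra hlt
    push Not at hlt
    obtain ⟨s, t, hs, ht, hst, hxst⟩ := hyb
    rw [← hxst, orient_comb _ _ _ _ hst] at g3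
    simp only [orient_left, mul_zero, zero_add] at g3
    have p := h i2 b j (by rw [Fin.lt_def]; omega) hlt
    have e : orient (P i2) (P j) (P b) = - orient (P i2) (P b) (P j) := orient_swap' _ _ _
    rw [e] at g3
    have := mul_pos ht p
    linarith

theorem strip {P : Fin n → ℝ × ℝ} (h : Ccw P) (hb : big P = ∅) (s : Fin n)
    {i0 i1 i2 i3 j : Fin n} (v0 : i0.val = 0) (v1 : i1.val = 1) (v2 : i2.val = 2)
    (v3 : i3.val = 3) (vj : 4 ≤ j.val) :
    ∃ a b : Fin n, 4 ≤ a.val ∧ a ≤ j ∧ j ≤ b ∧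
      ∃ y, y ∈ openSegment ℝ (P (i0 + s)) (P (i3 + s)) ∧
      y ∈ openSegment ℝ (P (i1 + s)) (P (a + s)) ∧ y ∈ openSegment ℝ (P (i2 + s)) (P (b + s)) :=
  strip0 (ccw_shift h s) (by rw [big_shift]; exact hb) v0 v1 v2 v3 vj

end Pool.Agent.H52CD
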