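import Pool.Agent.H52CD.Vertex

set_option autoImplicit false

open Set

namespace Pool.Agent.H52CD

variable {n : ℕ}

theorem ccw_shift {P : Fin n → ℝ × ℝ} (h : Ccw P) (s : Fin n) : Ccw fun k => P (k + s) := by
  intro i j k hij hjk
  have h1 := Fin.lt_def.mp hij
  have h2 := Fin.lt_def.mp hjk
  have hk := k.isLt
  have hs := s.isLt
  have ei := Fin.val_add_eq_ite i s
  have ej := Fin.val_add_eq_ite j s
  have ek := Fin.val_add_eq_ite k s
  simp only
  generalize i + s = i' at *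
  generalize j + s = j' at *
  generalize k + s = k' at *
  rcases Nat.lt_or_ge (k.val + s.val) n with c1 | c1
  · rw [if_neg (by omega)] at ei ej ek
    exact h _ _ _ (by rw [Fin.lt_def]; omega) (by rw [Fin.lt_def]; omega)
  rw [if_pos c1] at ek
  rcases Nat.lt_or_ge (j.val + s.val) n with c2 | c2
  · rw [if_neg (by omega)] at ei ej
    rw [← orient_rot]
    exact h _ _ _ (by rw [Fin.lt_def]; omega) (by rw [Fin.lt_def]; omega)
  rw [if_pos c2] at ej
  rcases Nat.lt_or_ge (i.val + s.val) n with c3 | c3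
  · rw [if_neg (by omega)] at ei
    rw [orient_rot]
    exact h _ _ _ (by rw [Fin.lt_def]; omega) (by rw [Fin.lt_def]; omega)
  · rw [if_pos c3] at ei
    exact h _ _ _ (by rw [Fin.lt_def]; omega) (by rw [Fin.lt_def]; omega)

theorem edges_shift (P : Fin n → ℝ × ℝ) (s : Fin n) : edges (fun k => P (k + s)) = edges P := by
  have hn : NeZero n := ⟨by have := s.isLt; omega⟩
  unfold edges
  have hsurj : Function.Surjective (fun k : Fin n => k + s) := (Equiv.addRight s).surjective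
  ext x
  simp only [mem_iUnion]
  constructor
  · rintro ⟨i, j, hx⟩; exact ⟨_, _, hx⟩
  · rintro ⟨i, j, hx⟩
    obtain ⟨i', rfl⟩ := hsurj i
    obtain ⟨j', rfl⟩ := hsurj j
    exact ⟨i', j', hx⟩

theorem big_shift (P : Fin n → ℝ × ℝ) (s : Fin n) : big (fun k => P (k + s)) = big P := by
  unfold big IsBoundedFace
  rw [edges_shift]

/-- The vertex property at every vertex. -/
theorem vertex {P : Fin n → ℝ × ℝ} (h : Ccw P) (hb : big P = ∅) (s : Fin n)
    {i0 i1 i2 i3 i4 : Fin n} (v0 : i0.val = 0) (v1 : i1.val = 1) (v2 : i2.val = 2)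
    (v3 : i3.val = 3) (v4 : i4.val = 4) :
    ∃ w : Fin n, 5 ≤ w.val ∧ ∃ y, y ∈ openSegment ℝ (P (i1 + s)) (P (i4 + s)) ∧
      y ∈ openSegment ℝ (P (i0 + s)) (P (i3 + s)) ∧
      y ∈ openSegment ℝ (P (i2 + s)) (P (w + s)) :=
  vertex0 (ccw_shift h s) (by rw [big_shift]; exact hb) v0 v1 v2 v3 v4

theorem f7 : ∀ s : Fin 7, 1 + (s + 1) = 2 + s ∧ 4 + (s + 1) = 5 + s ∧ 0 + (s + 1) = 1 + s ∧
    3 + (s + 1) = 4 + s ∧ 2 + (s + 1) = 3 + s ∧ 5 + (s + 1) = 6 + s ∧ 6 + (s + 1) = 0 + s := by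
  decide

theorem seven {P : Fin 7 → ℝ × ℝ} (h : Ccw P) : (big P).Nonempty := by
  rw [Set.nonempty_iff_ne_empty]
  intro hb
  have V : ∀ s : Fin 7, ∃ w : Fin 7, 5 ≤ w.val ∧
      ∃ y, y ∈ openSegment ℝ (P (1 + s)) (P (4 + s)) ∧
      y ∈ openSegment ℝ (P (0 + s)) (P (3 + s)) ∧
      y ∈ openSegment ℝ (P (2 + s)) (P (w + s)) := fun s =>
    vertex h hb s rfl rfl rfl rfl rfl
  let b : Fin 7 → Fin 7 → Prop := fun w s =>
      ∃ y, y ∈ openSegment ℝ (P (1 + s)) (P (4 + s)) ∧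
      y ∈ openSegment ℝ (P (0 + s)) (P (3 + s)) ∧
      y ∈ openSegment ℝ (P (2 + s)) (P (w + s))
  have hor : ∀ s, b 5 s ∨ b 6 s := by
    intro s
    obtain ⟨w, hw, hy⟩ := V s
    have : w = 5 ∨ w = 6 := by omega
    rcases this with rfl | rfl
    · exact Or.inl hy
    · exact Or.inr hy
  have nadd : ∀ (s a c : Fin 7), a ≠ c → a + s ≠ c + s := fun s a c hac e =>
    hac (add_right_cancel e)
  -- consecutive positions cannot both be of type `5`
  have h55 : ∀ s, b 5 s → ¬ b 5 (s + 1) := by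
    rintro s ⟨y, y1, y2, y3⟩ ⟨z, z1, z2, z3⟩
    obtain ⟨e2, e5, e1, e4, e3, e6, _⟩ := f7 s
    rw [e2, e5] at z1
    rw [e1, e4] at z2
    rw [e3, e6] at z3
    have : y = z := uniq2 (ne0 h (nadd s 1 4 (by decide)) (nadd s 1 2 (by decide))
      (nadd s 4 2 (by decide))) y1 y3 z2 z1
    subst this
    rw [openSegment_symm] at y2
    exact ray (ne0 h (nadd s 3 0 (by decide)) (nadd s 3 6 (by decide))
      (nadd s 0 6 (by decide))) y2 z3
  have h66 : ∀ s, b 6 s → ¬ b 6 (s + 1) := by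
    rintro s ⟨y, y1, y2, y3⟩ ⟨z, z1, z2, z3⟩
    obtain ⟨e2, e5, e1, e4, e3, _, e6⟩ := f7 s
    rw [e2, e5] at z1
    rw [e1, e4] at z2
    rw [e3, e6] at z3
    rw [openSegment_symm] at z3
    have : y = z := uniq2 (ne0 h (nadd s 1 4 (by decide)) (nadd s 1 0 (by decide))
      (nadd s 4 0 (by decide))) y1 y2 z2 z3
    subst this
    exact ray (ne0 h (nadd s 2 6 (by decide)) (nadd s 2 5 (by decide))
      (nadd s 6 5 (by decide))) y3 z1
  have h56 : ∀ s, b 5 s → ¬ b 6 s := by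
    rintro s ⟨y, y1, y2, y3⟩ ⟨z, z1, z2, z3⟩
    have : y = z := uniq2 (ne0 h (nadd s 1 4 (by decide)) (nadd s 1 0 (by decide))
      (nadd s 4 0 (by decide))) y1 y2 z1 z2
    subst this
    exact ray (ne0 h (nadd s 2 5 (by decide)) (nadd s 2 6 (by decide))
      (nadd s 5 6 (by decide))) y3 z3
  have s5 : ∀ s, b 5 s → b 6 (s + 1) := fun s hs => (hor (s + 1)).resolve_left (h55 s hs)
  have s6 : ∀ s, b 6 s → b 5 (s + 1) := fun s hs => (hor (s + 1)).resolve_right (h66 s hs)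
  rcases hor 0 with h0 | h0
  · exact h56 0 h0 (s5 6 (s6 5 (s5 4 (s6 3 (s5 2 (s6 1 (s5 0 h0)))))))
  · exact h56 0 (s6 6 (s5 5 (s6 4 (s5 3 (s6 2 (s5 1 (s6 0 h0))))))) h0

theorem odd_sym {P : Fin n → ℝ × ℝ} (h : Ccw P) (hn : 5 ≤ n) (hodd : Odd n)
    (σ : (ℝ × ℝ) →ᵃ[ℝ] (ℝ × ℝ)) (c : Fin n) (hσ : ∀ k, σ (P k) = P (c - k)) :
    (big P).Nonempty := by
  have hz : NeZero n := ⟨by omega⟩
  rw [Set.nonempty_iff_ne_empty]
  intro hb
  obtain ⟨m, hm⟩ := hodd
  have tors : ∀ d : Fin n, n • d = 0 := by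
    intro d
    have := card_nsmul_eq_zero (x := d)
    simpa using this
  have half : ∀ d : Fin n, (m + 1) • (d + d) = d := by
    intro d
    have e : (m + 1) • (d + d) = n • d + d := by
      rw [smul_add, ← add_smul]
      have : m + 1 + (m + 1) = n + 1 := by omega
      rw [this, succ_nsmul]
    rw [e, tors, zero_add]
  set u : Fin n := (m + 1) • c with hu
  have huu : u + u = c := by
    have e : u + u = (m + 1) • (c + c) := by rw [hu, smul_add]
    rw [e, half]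
  let i0 : Fin n := ⟨0, by omega⟩
  let i1 : Fin n := ⟨1, by omega⟩
  let i2 : Fin n := ⟨2, by omega⟩
  let i3 : Fin n := ⟨3, by omega⟩
  let i4 : Fin n := ⟨4, by omega⟩
  have a22 : i2 + i2 = i4 := by
    apply Fin.ext; rw [Fin.val_add]; exact Nat.mod_eq_of_lt (by show 2 + 2 < n; omega)
  have a13 : i1 + i3 = i4 := by
    apply Fin.ext; rw [Fin.val_add]; exact Nat.mod_eq_of_lt (by show 1 + 3 < n; omega)
  have a04 : i0 + i4 = i4 := by
    apply Fin.ext; rw [Fin.val_add]; exact Nat.mod_eq_of_lt (by show 0 + 4 < n; omega)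
  set s : Fin n := u - i2 with hs
  have hQ : ∀ k l : Fin n, k + l = i4 → σ (P (k + s)) = P (l + s) := by
    intro k l hkl
    rw [hσ]
    congr 1
    have e1 : c = (k + l) + s + s := by
      rw [hkl, ← a22, hs, ← huu]; abel
    rw [e1]; abel
  obtain ⟨w, hw, y, y1, y2, y3⟩ := vertex h hb s (i0 := i0) (i1 := i1) (i2 := i2) (i3 := i3)
    (i4 := i4) rfl rfl rfl rfl rfl
  have hmap : ∀ {a b x : ℝ × ℝ}, x ∈ openSegment ℝ a b → σ x ∈ openSegment ℝ (σ a) (σ b) := by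
    rintro a b x ⟨p, q, hp, hq, hpq, rfl⟩
    exact ⟨p, q, hp, hq, hpq, (Convex.combo_affine_apply hpq).symm⟩
  have z1 := hmap y1
  have z2 := hmap y2
  have z3 := hmap y3
  set w' : Fin n := i4 - w with hw'
  rw [hQ i1 i3 a13, hQ i4 i0 (by rw [add_comm]; exact a04)] at z1
  rw [hQ i0 i4 a04, hQ i3 i1 (by rw [add_comm]; exact a13)] at z2
  rw [hQ i2 i2 a22, hQ w w' (by rw [hw']; abel)] at z3
  have nadd : ∀ (a c : Fin n), a ≠ c → a + s ≠ c + s := fun a c hac e => hac (add_right_cancel e)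
  have nv : ∀ (a c : Fin n), a.val ≠ c.val → a + s ≠ c + s := fun a c hac =>
    nadd a c (fun e => hac (congrArg Fin.val e))
  rw [openSegment_symm] at z1 z2
  have hyz : y = σ y := uniq2 (ne0 h (nv i1 i4 (by show 1 ≠ 4; omega))
    (nv i1 i0 (by show 1 ≠ 0; omega)) (nv i4 i0 (by show 4 ≠ 0; omega))) y1 y2 z2 z1
  rw [← hyz] at z3
  have hw2 : w ≠ i2 := by
    intro e; rw [e] at hw
    have : (2 : ℕ) ≥ 5 := hw
    omega
  have hw2' : w' ≠ i2 := by
    intro e
    apply hw2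
    have : w = i4 - w' := by rw [hw']; abel
    rw [this, e, ← a22]; abel
  have hww : w ≠ w' := by
    intro e
    apply hw2
    have e1 : w + w = i2 + i2 := by
      rw [a22]
      nth_rewrite 2 [e]
      rw [hw']; abel
    rw [← half w, e1, half]
  exact ray (ne0 h (nadd _ _ hw2.symm) (nadd _ _ hw2'.symm) (nadd _ _ hww)) y3 z3

end Pool.Agent.H52CD
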