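import Pool.Agent.H52CD.Region

set_option autoImplicit false

open Set

namespace Pool.Agent.H52CD

variable {n : ℕ}

/-- Four points in convex position. -/
structure Four (a b c d : ℝ × ℝ) : Prop where
  abc : 0 < orient a b c
  abd : 0 < orient a b d
  acd : 0 < orient a c d
  bcd : 0 < orient b c d

theorem X_pos_ac {a b c d : ℝ × ℝ} (h : Four a b c d) {u v : ℝ × ℝ}
    (h1 : 0 ≤ orient u v a) (h2 : 0 ≤ orient u v c) (h3 : 0 < orient u v a + orient u v c) :
    0 < orient u v (X a b c d) := by
  apply X_pos h.bcd h.abd
  have h4 := mul_nonneg h.bcd.le h1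
  have h5 := mul_nonneg h.abd.le h2
  rcases h1.eq_or_lt with h6 | h6
  · have h7 : 0 < orient u v c := by linarith
    have := mul_pos h.abd h7
    linarith
  · have := mul_pos h.bcd h6
    linarith

theorem X_pos_bd {a b c d : ℝ × ℝ} (h : Four a b c d) {u v : ℝ × ℝ}
    (h1 : 0 ≤ orient u v b) (h2 : 0 ≤ orient u v d) (h3 : 0 < orient u v b + orient u v d) :
    0 < orient u v (X a b c d) := by
  apply X_pos h.bcd h.abd
  have key : orient b c d * orient u v a + orient a b d * orient u v c =
      orient a c d * orient u v b + orient a b c * orient u v d := by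
    unfold orient; ring
  rw [key]
  have h4 := mul_nonneg h.acd.le h1
  have h5 := mul_nonneg h.abc.le h2
  rcases h1.eq_or_lt with h6 | h6
  · have h7 : 0 < orient u v d := by linarith
    have := mul_pos h.abc h7
    linarith
  · have := mul_pos h.acd h6
    linarith

/-- The triangle `b`, `c`, `X` (where `X` is the intersection of `ac` and `bd`). -/
theorem tri_rep {a b c d x : ℝ × ℝ} (h : Four a b c d) (h1 : 0 ≤ orient b c x)
    (h2 : 0 ≤ orient c a x) (h3 : 0 ≤ orient d b x) :
    ∃ α β γ : ℝ, 0 ≤ α ∧ 0 ≤ β ∧ 0 ≤ γ ∧ α + β + γ = 1 ∧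
      x = α • b + β • c + γ • X a b c d := by
  set q := X a b c d with hq
  have hS : 0 < orient b c d + orient a b d := by have := h.bcd; have := h.abd; linarith
  have hD : 0 < orient b c q := by
    apply X_pos_ac h
    · rw [orient_rot, orient_rot]; exact h.abc.le
    · simp
    · rw [orient_right, orient_rot, orient_rot]; simpa using h.abc
  -- the two other sides
  have e1 : (orient b c d + orient a b d) * orient c q x = orient b c d * orient c a x := by
    have h5 : orient c q x = orient x c q := by rw [orient_rot, orient_rot]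
    rw [h5, X_eval h.bcd h.abd]
    unfold orient; ring
  have e2 : (orient b c d + orient a b d) * orient q b x = orient a b c * orient d b x := by
    have h5 : orient q b x = orient b x q := by rw [orient_rot]
    rw [h5, X_eval h.bcd h.abd]
    unfold orient; ring
  have g1 : 0 ≤ orient c q x := by
    have h6 : 0 ≤ (orient b c d + orient a b d) * orient c q x := by
      rw [e1]; exact mul_nonneg h.bcd.le h2
    exact nonneg_of_mul_nonneg_right h6 hS
  have g2 : 0 ≤ orient q b x := by
    have h6 : 0 ≤ (orient b c d + orient a b d) * orient q b x := by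
      rw [e2]; exact mul_nonneg h.abc.le h3
    exact nonneg_of_mul_nonneg_right h6 hS
  refine ⟨orient c q x / orient b c q, orient q b x / orient b c q,
    orient b c x / orient b c q, by positivity, by positivity, by positivity, ?_, ?_⟩
  · field_simp
    unfold orient; ring
  · apply Prod.ext
    · simp only [Prod.fst_add, Prod.smul_fst, smul_eq_mul]
      field_simp
      unfold orient; ring
    · simp only [Prod.snd_add, Prod.smul_snd, smul_eq_mul]
      field_simp
      unfold orient; ring

theorem orient_comb3 (u v x y z : ℝ × ℝ) {α β γ : ℝ} (h : α + β + γ = 1) :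
    orient u v (α • x + β • y + γ • z) =
      α * orient u v x + β * orient u v y + γ * orient u v z := by
  unfold orient
  simp only [Prod.fst_add, Prod.snd_add, Prod.smul_fst, Prod.smul_snd, smul_eq_mul]
  linear_combination (-(-(v.1 - u.1) * u.2 + (v.2 - u.2) * u.1)) * h

theorem strict {a b c d x : ℝ × ℝ} (h : Four a b c d) (h1 : 0 ≤ orient b c x)
    (h2 : 0 ≤ orient c a x) (h3 : 0 ≤ orient d b x) (hxb : x ≠ b) (hxc : x ≠ c) {u v : ℝ × ℝ}
    (k1 : 0 ≤ orient u v b) (k2 : 0 ≤ orient u v c) (k3 : 0 < orient u v b + orient u v c)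
    (k4 : 0 < orient u v (X a b c d)) : 0 < orient u v x := by
  obtain ⟨α, β, γ, hα, hβ, hγ, hs, hx⟩ := tri_rep h h1 h2 h3
  have e : orient u v x = α * orient u v b + β * orient u v c + γ * orient u v (X a b c d) := by
    rw [hx]; exact orient_comb3 _ _ _ _ _ hs
  have p1 := mul_nonneg hα k1
  have p2 := mul_nonneg hβ k2
  have p3 := mul_nonneg hγ k4.le
  by_contra hcon
  push Not at hcon
  have z1 : α * orient u v b = 0 := by linarith
  have z2 : β * orient u v c = 0 := by linarith
  have z3 : γ * orient u v (X a b c d) = 0 := by linarith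
  have hγ0 : γ = 0 := by
    rcases mul_eq_zero.mp z3 with h5 | h5
    · exact h5
    · exact absurd h5 k4.ne'
  rcases mul_eq_zero.mp z1 with h5 | h5
  · -- α = 0, so x = c
    apply hxc
    have : β = 1 := by linarith
    rw [hx, h5, hγ0, this]; simp
  · rcases mul_eq_zero.mp z2 with h6 | h6
    · apply hxb
      have : α = 1 := by linarith
      rw [hx, h6, hγ0, this]; simp
    · rw [h5, h6] at k3; linarith

end Pool.Agent.H52CD
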