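import Pool.Agent.H52CD.Final1

set_option autoImplicit false

open Set

namespace Pool.Agent.H52CD

variable {n : ℕ}

theorem ne0 {P : Fin n → ℝ × ℝ} (h : Ccw P) {i j k : Fin n} (hij : i ≠ j) (hik : i ≠ k)
    (hjk : j ≠ k) : orient (P i) (P j) (P k) ≠ 0 := by
  rcases lt_or_gt_of_ne hij with h1 | h1 <;> rcases lt_or_gt_of_ne hik with h2 | h2 <;>
    rcases lt_or_gt_of_ne hjk with h3 | h3
  · exact (h _ _ _ h1 h3).ne'
  · have := h _ _ _ h2 h3
    rw [orient_swap'] at this; intro h4; linarith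
  · exact absurd (h1.trans h3) (not_lt.mpr h2.le)
  · have := h _ _ _ h2 h1
    rw [orient_rot] at this; exact this.ne'
  · have := h _ _ _ h1 h2
    rw [orient_swap] at this; intro h4; linarith
  · exact absurd (h2.trans h3) (not_lt.mpr h1.le)
  · have := h _ _ _ h3 h2
    rw [← orient_rot] at this; exact this.ne'
  · have := h _ _ _ h3 h1
    have h5 : orient (P k) (P j) (P i) = - orient (P i) (P j) (P k) := by unfold orient; ring
    rw [h5] at this; intro h4; linarith

theorem orient_of_mem {p a x : ℝ × ℝ} (h : x ∈ openSegment ℝ p a) : orient p a x = 0 := by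
  obtain ⟨s, t, hs, ht, hst, rfl⟩ := h
  rw [orient_comb _ _ _ _ hst]; simp

theorem ray {p a b x : ℝ × ℝ} (h : orient p a b ≠ 0) (h1 : x ∈ openSegment ℝ p a)
    (h2 : x ∈ openSegment ℝ p b) : False := by
  have h3 := orient_of_mem h2
  obtain ⟨s, t, hs, ht, hst, rfl⟩ := h1
  rw [orient_comb _ _ _ _ hst] at h3
  simp only [orient_left, mul_zero, zero_add] at h3
  rcases mul_eq_zero.mp h3 with h4 | h4
  · exact ht.ne' h4
  · apply h; rw [orient_swap']; linarith

theorem uniq2 {p q r t x y : ℝ × ℝ} (h : orient p q r ≠ 0) (hx : x ∈ openSegment ℝ p q)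
    (hx' : x ∈ openSegment ℝ r t) (hy : y ∈ openSegment ℝ p q) (hy' : y ∈ openSegment ℝ r t) :
    x = y := by
  have h1 := orient_of_mem hx
  have h2 := orient_of_mem hy
  have h3 := orient_of_mem hx'
  have h4 := orient_of_mem hy'
  refine uniq ?_ h1 h3 h2 h4
  intro hD
  apply h
  obtain ⟨a, b, ha, hb, hab, hxab⟩ := hx'
  rw [← hxab, orient_comb _ _ _ _ hab] at h1
  have h5 : orient p q t = orient p q r := by linarith
  rw [h5] at h1
  have h6 : (a + b) * orient p q r = 0 := by linarith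
  rw [hab, one_mul] at h6
  exact h6

/-- Which edges can pass through a point of the inner pentagon of five consecutive vertices. -/
theorem classify {P : Fin n → ℝ × ℝ} (h : Ccw P) {i0 i1 i2 i3 i4 : Fin n} (v0 : i0.val = 0)
    (v1 : i1.val = 1) (v2 : i2.val = 2) (v3 : i3.val = 3) (v4 : i4.val = 4) {x : ℝ × ℝ}
    (hx : x ∈ R (P i0) (P i1) (P i2) (P i3) (P i4)) {e : Fin n × Fin n}
    (he : e ∈ through P x) :
    (e.1 = i2 ∨ e.2 = i2) ∨ e = (i1, i3) ∨ e = (i1, i4) ∨ e = (i0, i3) := by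
  obtain ⟨a, b⟩ := e
  obtain ⟨hab, hx2⟩ := he
  simp only at hab hx2 ⊢
  by_contra hcon
  push Not at hcon
  obtain ⟨⟨c1, c2⟩, c3, c4, c5⟩ := hcon
  have l01 : i0 < i1 := by rw [Fin.lt_def]; omega
  have l12 : i1 < i2 := by rw [Fin.lt_def]; omega
  have l23 : i2 < i3 := by rw [Fin.lt_def]; omega
  have l34 : i3 < i4 := by rw [Fin.lt_def]; omega
  have hF : Four (P i0) (P i1) (P i3) (P i4) :=
    ⟨h _ _ _ l01 (l12.trans l23), h _ _ _ l01 (l12.trans (l23.trans l34)),
      h _ _ _ (l01.trans (l12.trans l23)) l34, h _ _ _ (l12.trans l23) l34⟩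
  have nm := vertex_not_mem h l01 l12 l23 l34
  have hx1 : x ≠ P i1 := by rintro rfl; exact nm i1 hx
  have hx3 : x ≠ P i3 := by rintro rfl; exact nm i3 hx
  obtain ⟨g1, g2, g3, g4, g5, g6⟩ := hx
  have h0 := orient_of_mem hx2
  have st : ∀ {u v : ℝ × ℝ}, 0 ≤ orient u v (P i1) → 0 ≤ orient u v (P i3) →
      0 < orient u v (P i1) + orient u v (P i3) → 0 < orient u v (X (P i0) (P i1) (P i3) (P i4)) →
      0 < orient u v x := fun k1 k2 k3 k4 => strict hF g2 g4 g5 hx1 hx3 k1 k2 k3 k4
  have hablt := Fin.lt_def.mp hab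
  have hb2 : b.val ≠ 2 := fun hh => c2 (Fin.ext (by omega))
  have ha2 : a.val ≠ 2 := fun hh => c1 (Fin.ext (by omega))
  rcases Nat.lt_or_ge a.val 1 with ha | ha
  · -- a = 0
    have ea : a = i0 := Fin.ext (by omega)
    subst ea
    rcases Nat.lt_or_ge b.val 2 with hb | hb
    · have eb : b = i1 := Fin.ext (by omega)
      subst eb
      have p3 := h _ _ _ l01 (l12.trans l23)
      have := st (u := P a) (v := P b) (by simp) p3.le (by simpa using p3)
        (X_pos_ac hF (by simp) p3.le (by simpa using p3))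
      linarith
    · have hb3 : b.val ≠ 3 := fun hh => c5 (by rw [show b = i3 from Fin.ext (by omega)])
      have p1 : 0 < orient (P b) (P a) (P i1) := by
        rw [orient_rot]; exact h _ _ _ l01 (by rw [Fin.lt_def]; omega)
      have p3 : 0 < orient (P b) (P a) (P i3) := by
        rw [orient_rot]
        exact h _ _ _ (by rw [Fin.lt_def]; omega) (by rw [Fin.lt_def]; omega)
      have p4 : 0 ≤ orient (P b) (P a) (P i4) := by
        by_cases e4 : b = i4
        · rw [e4]; simp
        · have : b.val ≠ 4 := fun hh => e4 (Fin.ext (by omega))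
          rw [orient_rot]
          exact (h _ _ _ (by rw [Fin.lt_def]; omega) (by rw [Fin.lt_def]; omega)).le
      have := st p1.le p3.le (by linarith) (X_pos_bd hF p1.le p4 (by linarith))
      rw [orient_swap] at this; linarith
  rcases Nat.lt_or_ge a.val 2 with ha' | ha'
  · -- a = 1
    have ea : a = i1 := Fin.ext (by omega)
    subst ea
    have hb3 : b.val ≠ 3 := fun hh => c3 (by rw [show b = i3 from Fin.ext (by omega)])
    have hb4 : b.val ≠ 4 := fun hh => c4 (by rw [show b = i4 from Fin.ext (by omega)])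
    have p3 : 0 < orient (P b) (P a) (P i3) := by
      rw [orient_rot]
      exact h _ _ _ (by rw [Fin.lt_def]; omega) (by rw [Fin.lt_def]; omega)
    have p4 : 0 < orient (P b) (P a) (P i4) := by
      rw [orient_rot]
      exact h _ _ _ (by rw [Fin.lt_def]; omega) (by rw [Fin.lt_def]; omega)
    have := st (u := P b) (v := P a) (by simp) p3.le (by simpa using p3)
      (X_pos_bd hF (by simp) p4.le (by simpa using p4))
    rw [orient_swap] at this; linarith
  · -- a ≥ 3
    have p1 : 0 < orient (P a) (P b) (P i1) := by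
      rw [← orient_rot]
      exact h _ _ _ (by rw [Fin.lt_def]; omega) hab
    have p0 : 0 < orient (P a) (P b) (P i0) := by
      rw [← orient_rot]
      exact h _ _ _ (by rw [Fin.lt_def]; omega) hab
    have p3 : 0 ≤ orient (P a) (P b) (P i3) := by
      by_cases e3 : a = i3
      · rw [e3]; simp
      · have : a.val ≠ 3 := fun hh => e3 (Fin.ext (by omega))
        rw [← orient_rot]
        exact (h _ _ _ (by rw [Fin.lt_def]; omega) hab).le
    have := st p1.le p3 (by linarith) (X_pos_ac hF p0.le p3 (by linarith))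
    linarith

/-- The vertex property for five consecutive vertices `0,1,2,3,4`. -/
theorem vertex0 {P : Fin n → ℝ × ℝ} (h : Ccw P) (hb : big P = ∅) {i0 i1 i2 i3 i4 : Fin n}
    (v0 : i0.val = 0) (v1 : i1.val = 1) (v2 : i2.val = 2) (v3 : i3.val = 3) (v4 : i4.val = 4) :
    ∃ w : Fin n, 5 ≤ w.val ∧ ∃ y, y ∈ openSegment ℝ (P i1) (P i4) ∧
      y ∈ openSegment ℝ (P i0) (P i3) ∧ y ∈ openSegment ℝ (P i2) (P w) := by
  have l01 : i0 < i1 := by rw [Fin.lt_def]; omega
  have l12 : i1 < i2 := by rw [Fin.lt_def]; omega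
  have l23 : i2 < i3 := by rw [Fin.lt_def]; omega
  have l34 : i3 < i4 := by rw [Fin.lt_def]; omega
  rcases pentagram h l01 l12 l23 l34 with ⟨x, hx, h3⟩ | ⟨F, _, _, hF1, hF2⟩
  swap
  · exfalso
    have : F ∈ big P := ⟨hF1, hF2⟩
    rw [hb] at this
    exact this
  obtain ⟨t, ht, ht3⟩ := Set.exists_subset_encard_eq h3
  obtain ⟨e, f, g, hef, heg, hfg, rfl⟩ := Set.encard_eq_three.mp ht3
  have he : e ∈ through P x := ht (by simp)
  have hf : f ∈ through P x := ht (by simp)
  have hg : g ∈ through P x := ht (by simp)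
  have ce := classify h v0 v1 v2 v3 v4 hx he
  have cf := classify h v0 v1 v2 v3 v4 hx hf
  have cg := classify h v0 v1 v2 v3 v4 hx hg
  -- at most one edge at `i2`
  have hT2 : ∀ a ∈ through P x, ∀ b ∈ through P x, (a.1 = i2 ∨ a.2 = i2) →
      (b.1 = i2 ∨ b.2 = i2) → a = b := by
    rintro ⟨a1, a2⟩ ⟨ha, ha'⟩ ⟨b1, b2⟩ ⟨hb, hb'⟩ hA hB
    simp only at ha ha' hb hb' hA hB
    by_contra hne
    rcases hA with rfl | rfl <;> rcases hB with rfl | rfl
    · exact ray (ne0 h ha.ne hb.ne (fun e => hne (by rw [e]))) ha' hb'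
    · rw [openSegment_symm] at hb'
      exact ray (ne0 h ha.ne hb.ne' (by rintro rfl; exact absurd (ha.trans hb) (lt_irrefl _)))
        ha' hb'
    · rw [openSegment_symm] at ha'
      exact ray (ne0 h ha.ne' hb.ne (by rintro rfl; exact absurd (ha.trans hb) (lt_irrefl _)))
        ha' hb'
    · rw [openSegment_symm] at ha' hb'
      exact ray (ne0 h ha.ne' hb.ne' (fun e => hne (by rw [e]))) ha' hb'
  have h1314 : (i1, i3) ∈ through P x → (i1, i4) ∈ through P x → False := by
    rintro ⟨_, h1⟩ ⟨_, h2⟩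
    exact ray (ne0 h (l12.trans l23).ne (l12.trans (l23.trans l34)).ne l34.ne) h1 h2
  have h1303 : (i1, i3) ∈ through P x → (i0, i3) ∈ through P x → False := by
    rintro ⟨_, h1⟩ ⟨_, h2⟩
    simp only at h1 h2
    rw [openSegment_symm] at h1 h2
    exact ray (ne0 h (l12.trans l23).ne' (l01.trans (l12.trans l23)).ne' l01.ne') h1 h2
  have main : (i1, i4) ∈ through P x ∧ (i0, i3) ∈ through P x ∧
      ∃ a ∈ through P x, (a.1 = i2 ∨ a.2 = i2) := by
    rcases ce with ce | ce | ce | ce <;> rcases cf with cf | cf | cf | cf <;>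
      rcases cg with cg | cg | cg | cg <;>
      first
        | exact absurd (hT2 _ he _ hf ce cf) hef
        | exact absurd (hT2 _ he _ hg ce cg) heg
        | exact absurd (hT2 _ hf _ hg cf cg) hfg
        | exact absurd (ce.trans cf.symm) hef
        | exact absurd (ce.trans cg.symm) heg
        | exact absurd (cf.trans cg.symm) hfg
        | exact (h1314 (ce ▸ he) (cf ▸ hf)).elim
        | exact (h1314 (cf ▸ hf) (ce ▸ he)).elim
        | exact (h1314 (ce ▸ he) (cg ▸ hg)).elim
        | exact (h1314 (cg ▸ hg) (ce ▸ he)).elim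
        | exact (h1314 (cf ▸ hf) (cg ▸ hg)).elim
        | exact (h1314 (cg ▸ hg) (cf ▸ hf)).elim
        | exact (h1303 (ce ▸ he) (cf ▸ hf)).elim
        | exact (h1303 (cf ▸ hf) (ce ▸ he)).elim
        | exact (h1303 (ce ▸ he) (cg ▸ hg)).elim
        | exact (h1303 (cg ▸ hg) (ce ▸ he)).elim
        | exact (h1303 (cf ▸ hf) (cg ▸ hg)).elim
        | exact (h1303 (cg ▸ hg) (cf ▸ hf)).elim
        | exact ⟨ce ▸ he, cf ▸ hf, _, hg, cg⟩
        | exact ⟨cf ▸ hf, ce ▸ he, _, hg, cg⟩
        | exact ⟨ce ▸ he, cg ▸ hg, _, hf, cf⟩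
        | exact ⟨cg ▸ hg, ce ▸ he, _, hf, cf⟩
        | exact ⟨cf ▸ hf, cg ▸ hg, _, he, ce⟩
        | exact ⟨cg ▸ hg, cf ▸ hf, _, he, ce⟩
  obtain ⟨⟨_, m14⟩, ⟨_, m03⟩, ⟨a1, a2⟩, ⟨ha, ha'⟩, hA⟩ := main
  simp only at m14 m03 ha ha' hA
  have hlt := Fin.lt_def.mp ha
  rcases hA with rfl | rfl
  · -- edge (2, w)
    refine ⟨a2, ?_, x, m14, m03, ha'⟩
    by_contra hlt5
    push Not at hlt5
    rcases Nat.lt_or_ge a2.val 4 with h4 | h4
    · have : a2 = i3 := Fin.ext (by omega)
      subst this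
      rw [openSegment_symm] at ha' m03
      exact ray (ne0 h ha.ne' (l01.trans (l12.trans l23)).ne' (l01.trans l12).ne') ha' m03
    · have : a2 = i4 := Fin.ext (by omega)
      subst this
      rw [openSegment_symm] at ha' m14
      exact ray (ne0 h ha.ne' (l12.trans (l23.trans l34)).ne' l12.ne') ha' m14
  · exfalso
    rcases Nat.lt_or_ge a1.val 1 with h4 | h4
    · have : a1 = i0 := Fin.ext (by omega)
      subst this
      exact ray (ne0 h ha.ne (l01.trans (l12.trans l23)).ne l23.ne) ha' m03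
    · have : a1 = i1 := Fin.ext (by omega)
      subst this
      exact ray (ne0 h ha.ne (l12.trans (l23.trans l34)).ne (l23.trans l34).ne) ha' m14

end Pool.Agent.H52CD
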